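import Mathlib

/-!
# MP_fa09f8_nt: isomorphisms between unit groups of residue rings

`rr b` is the radical of `b`, times `2` if `b` is even.  If `b` is odd or divisible by `4` then
`(ℤ/b)ˣ ≅ (ℤ/rr b)ˣ × C_(b/rr b)`.
-/

set_option autoImplicit false

namespace Pool.Agent.UGrp

/-- the cyclic group of order `n` -/
abbrev Cy (n : ℕ) : Type := Multiplicative (ZMod n)

/-- the unit groups modulo `a` and `b` are isomorphic -/
def UI (a b : ℕ) : Prop := Nonempty ((ZMod a)ˣ ≃* (ZMod b)ˣ)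

/-- the radical, times `2` if `b` is even -/
def rr (b : ℕ) : ℕ := (if 2 ∣ b then 2 else 1) * ∏ p ∈ b.primeFactors, p

theorem units_mul {a b : ℕ} (h : a.Coprime b) :
    Nonempty ((ZMod (a * b))ˣ ≃* (ZMod a)ˣ × (ZMod b)ˣ) :=
  ⟨(Units.mapEquiv (ZMod.chineseRemainder h).toMulEquiv).trans MulEquiv.prodUnits⟩

theorem cy_mul {a b : ℕ} (h : a.Coprime b) : Nonempty (Cy (a * b) ≃* Cy a × Cy b) :=
  ⟨(AddEquiv.toMultiplicative (ZMod.chineseRemainder h).toAddEquiv).trans
    (MulEquiv.prodMultiplicative _ _)⟩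

theorem cy_card (n : ℕ) : Nat.card (Cy n) = n := by
  rw [Nat.card_congr (Multiplicative.toAdd (α := ZMod n)), Nat.card_zmod]

/-- a finite cyclic group of order `n` is `Cy n` -/
theorem cyc_iso {G : Type} [Group G] [IsCyclic G] {n : ℕ} (h : Nat.card G = n) :
    Nonempty (G ≃* Cy n) := by
  have : Nat.card G = Nat.card (Cy n) := by rw [h, cy_card]
  exact ⟨mulEquivOfCyclicCardEq this⟩

theorem units_prime {p : ℕ} (hp : p.Prime) : Nonempty ((ZMod p)ˣ ≃* Cy (p - 1)) := by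
  have := Fact.mk hp
  apply cyc_iso
  rw [Nat.card_eq_fintype_card, ZMod.card_units]

theorem units_odd_pow {p : ℕ} (hp : p.Prime) (hp2 : p ≠ 2) (n : ℕ) :
    Nonempty ((ZMod (p ^ (n + 1)))ˣ ≃* (ZMod p)ˣ × Cy (p ^ n)) := by
  have := Fact.mk hp
  have := ZMod.isCyclic_units_of_prime_pow p hp hp2 (n + 1)
  have hc : (p - 1).Coprime (p ^ n) := by
    apply Nat.Coprime.pow_right
    exact (Nat.coprime_self_sub_left hp.one_lt.le).2 (Nat.coprime_one_left p)
  obtain ⟨e1⟩ := cyc_iso (G := (ZMod (p ^ (n + 1)))ˣ) (n := (p - 1) * p ^ n) (by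
    rw [Nat.card_eq_fintype_card, ZMod.card_units_eq_totient, Nat.totient_prime_pow_succ hp,
      mul_comm])
  obtain ⟨e2⟩ := cy_mul hc
  obtain ⟨e3⟩ := units_prime hp
  exact ⟨e1.trans (e2.trans (e3.symm.prodCongr (MulEquiv.refl _)))⟩

/-- the `2`-part -/
theorem units_two_pow (n : ℕ) : Nonempty ((ZMod (2 ^ (n + 2)))ˣ ≃* (ZMod 4)ˣ × Cy (2 ^ n)) := by
  have : NeZero (2 ^ (n + 2)) := ⟨by positivity⟩
  have h5 : Nat.Coprime 5 (2 ^ (n + 2)) := Nat.Coprime.pow_right _ (by norm_num)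
  set u : (ZMod (2 ^ (n + 2)))ˣ := ZMod.unitOfCoprime 5 h5 with hu
  have hou : orderOf u = 2 ^ n := by
    rw [← orderOf_units, hu, ZMod.coe_unitOfCoprime]
    exact_mod_cast ZMod.orderOf_five n
  -- reduction mod 4
  have h4 : 4 ∣ 2 ^ (n + 2) := ⟨2 ^ n, by ring⟩
  set f : (ZMod (2 ^ (n + 2)))ˣ →* (ZMod 4)ˣ := ZMod.unitsMap h4 with hf
  have hfu : f u = 1 := by
    ext
    rw [hf, ZMod.unitsMap_val, hu, ZMod.coe_unitOfCoprime]
    rw [ZMod.cast_natCast h4, Units.val_one]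
    decide
  have hsurj : Function.Surjective f := ZMod.unitsMap_surjective h4
  -- the order of `-1`
  have hfneg : f (-1) ≠ 1 := by
    intro h
    have h1 := congrArg (Units.val) h
    rw [hf, ZMod.unitsMap_val] at h1
    rw [Units.val_neg, Units.val_one, Units.val_one, ZMod.cast_neg h4, ZMod.cast_one h4] at h1
    exact absurd h1 (by decide)
  have hneg : orderOf (-1 : (ZMod (2 ^ (n + 2)))ˣ) = 2 := by
    apply orderOf_eq_prime
    · simp
    · intro h
      apply hfneg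
      rw [h, map_one]
  set A := Subgroup.zpowers (-1 : (ZMod (2 ^ (n + 2)))ˣ) with hA
  set B := Subgroup.zpowers u with hB
  have hBf : ∀ x ∈ B, f x = 1 := by
    intro x hx
    obtain ⟨k, rfl⟩ := Subgroup.mem_zpowers_iff.1 hx
    rw [map_zpow, hfu, one_zpow]
  have hAB : ∀ x ∈ A, f x = 1 → x = 1 := by
    intro x hx hx1
    obtain ⟨k, rfl⟩ := Subgroup.mem_zpowers_iff.1 hx
    rcases Int.even_or_odd k with hk | hk
    · exact hk.neg_one_zpow
    · rw [hk.neg_one_zpow] at hx1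
      exact absurd hx1 hfneg
  set F : A × B →* (ZMod (2 ^ (n + 2)))ˣ := A.subtype.coprod B.subtype with hF
  have hinj : Function.Injective F := by
    rw [injective_iff_map_eq_one]
    rintro ⟨⟨x, hx⟩, ⟨y, hy⟩⟩ hxy
    have h1 : x * y = 1 := hxy
    have h2 : f x = 1 := by
      have := congrArg f h1
      rwa [map_mul, hBf y hy, mul_one, map_one] at this
    have h3 := hAB x hx h2
    subst h3
    rw [one_mul] at h1
    subst h1
    rfl
  have hcardA : Nat.card A = 2 := by rw [hA, Nat.card_zpowers, hneg]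
  have hcardB : Nat.card B = 2 ^ n := by rw [hB, Nat.card_zpowers, hou]
  have hcard : Nat.card (A × B) = Nat.card (ZMod (2 ^ (n + 2)))ˣ := by
    rw [Nat.card_prod, hcardA, hcardB, Nat.card_eq_fintype_card, ZMod.card_units_eq_totient,
      show n + 2 = (n + 1) + 1 from rfl, Nat.totient_prime_pow_succ Nat.prime_two]
    ring
  have hbij : Function.Bijective F := by
    rw [Nat.bijective_iff_injective_and_card]
    exact ⟨hinj, hcard⟩
  have := ZMod.isCyclic_units_four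
  have hcard4 : Nat.card (ZMod 4)ˣ = 2 := by
    rw [Nat.card_eq_fintype_card, ZMod.card_units_eq_totient]
    decide
  obtain ⟨eB⟩ := cyc_iso (G := B) hcardB
  have eA : A ≃* (ZMod 4)ˣ := mulEquivOfCyclicCardEq (hcardA.trans hcard4.symm)
  exact ⟨(MulEquiv.ofBijective F hbij).symm.trans (eA.prodCongr eB)⟩

theorem rr_mul {a b : ℕ} (h : a.Coprime b) : rr (a * b) = rr a * rr b := by
  unfold rr
  rw [h.primeFactors_mul, Finset.prod_union h.disjoint_primeFactors]
  have key : (if 2 ∣ a * b then 2 else 1) = (if 2 ∣ a then 2 else 1) * (if 2 ∣ b then 2 else 1) := by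
    by_cases ha : 2 ∣ a
    · have hb : ¬ 2 ∣ b := fun hb => by
        have := Nat.dvd_gcd ha hb
        rw [h.gcd_eq_one] at this
        omega
      rw [if_pos ha, if_neg hb, if_pos (ha.mul_right b)]
    · by_cases hb : 2 ∣ b
      · rw [if_neg ha, if_pos hb, if_pos (hb.mul_left a)]
      · rw [if_neg ha, if_neg hb, if_neg]
        intro hab
        rcases (Nat.Prime.dvd_mul Nat.prime_two).1 hab with h1 | h1
        · exact ha h1
        · exact hb h1
  rw [key]
  ring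

theorem rr_pos (b : ℕ) : 0 < rr b := by
  unfold rr
  apply Nat.mul_pos
  · split_ifs <;> norm_num
  · exact Finset.prod_pos (fun p hp => (Nat.prime_of_mem_primeFactors hp).pos)

/-- **Structure.**  `(ℤ/b)ˣ ≅ (ℤ/rr b)ˣ × C_(b/rr b)` for `b` odd or divisible by `4`. -/
theorem structure_units (b : ℕ) : b ≠ 0 → (¬ 2 ∣ b ∨ 4 ∣ b) →
    ∃ g, b = rr b * g ∧ Nonempty ((ZMod b)ˣ ≃* (ZMod (rr b))ˣ × Cy g) := by
  induction b using Nat.recOnPosPrimePosCoprime with
  | prime_pow p n hp hn =>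
    intro _ h
    by_cases hp2 : p = 2
    · subst hp2
      obtain ⟨m, rfl⟩ : ∃ m, n = m + 2 := by
        refine ⟨n - 2, ?_⟩
        rcases h with h | h
        · exact absurd (dvd_pow_self 2 (by omega)) h
        · by_contra hne
          have hn1 : n = 1 := by omega
          subst hn1
          omega
      have hrr : rr (2 ^ (m + 2)) = 4 := by
        unfold rr
        rw [if_pos (dvd_pow_self 2 (by omega)), Nat.primeFactors_prime_pow (by omega) Nat.prime_two,
          Finset.prod_singleton]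
      rw [hrr]
      exact ⟨2 ^ m, by ring, units_two_pow m⟩
    · obtain ⟨m, rfl⟩ : ∃ m, n = m + 1 := ⟨n - 1, by omega⟩
      have hrr : rr (p ^ (m + 1)) = p := by
        unfold rr
        rw [if_neg, Nat.primeFactors_prime_pow (by omega) hp, Finset.prod_singleton, one_mul]
        intro h2
        have := Nat.prime_two.dvd_of_dvd_pow h2
        exact hp2 ((Nat.prime_dvd_prime_iff_eq Nat.prime_two hp).1 this).symm
      rw [hrr]
      exact ⟨p ^ m, by ring, units_odd_pow hp hp2 m⟩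
  | zero => intro h; exact absurd rfl h
  | one =>
    intro _ _
    refine ⟨1, by unfold rr; simp, ?_⟩
    have : rr 1 = 1 := by unfold rr; simp
    rw [this]
    exact ⟨MulEquiv.prodUnique.symm⟩
  | coprime a b ha hb hab iha ihb =>
    intro _ h
    have ha' : ¬ 2 ∣ a ∨ 4 ∣ a := by
      rcases h with h | h
      · exact Or.inl fun h2 => h (h2.mul_right b)
      · by_cases h2 : 2 ∣ a
        · right
          have hb2 : Nat.Coprime 2 b := Nat.Coprime.coprime_dvd_left h2 hab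
          exact (Nat.Coprime.dvd_of_dvd_mul_right (Nat.Coprime.pow_left 2 hb2) h)
        · exact Or.inl h2
    have hb' : ¬ 2 ∣ b ∨ 4 ∣ b := by
      rcases h with h | h
      · exact Or.inl fun h2 => h (h2.mul_left a)
      · by_cases h2 : 2 ∣ b
        · right
          have ha2 : Nat.Coprime 2 a := Nat.Coprime.coprime_dvd_left h2 hab.symm
          exact (Nat.Coprime.dvd_of_dvd_mul_left (Nat.Coprime.pow_left 2 ha2) h)
        · exact Or.inl h2
    obtain ⟨ga, hga, ⟨ea⟩⟩ := iha (by omega) ha'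
    obtain ⟨gb, hgb, ⟨eb⟩⟩ := ihb (by omega) hb'
    refine ⟨ga * gb, ?_, ?_⟩
    · rw [rr_mul hab]
      calc a * b = (rr a * ga) * (rr b * gb) := by rw [← hga, ← hgb]
        _ = rr a * rr b * (ga * gb) := by ring
    · rw [rr_mul hab]
      have hda : rr a ∣ a := ⟨ga, hga⟩
      have hdb : rr b ∣ b := ⟨gb, hgb⟩
      have hga' : ga ∣ a := ⟨rr a, by rw [mul_comm]; exact hga⟩
      have hgb' : gb ∣ b := ⟨rr b, by rw [mul_comm]; exact hgb⟩
      obtain ⟨e1⟩ := units_mul hab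
      obtain ⟨e2⟩ := units_mul (Nat.Coprime.coprime_dvd_left hda
        (Nat.Coprime.coprime_dvd_right hdb hab))
      obtain ⟨e3⟩ := cy_mul (Nat.Coprime.coprime_dvd_left hga'
        (Nat.Coprime.coprime_dvd_right hgb' hab))
      exact ⟨e1.trans ((ea.prodCongr eb).trans ((MulEquiv.prodProdProdComm _ _ _ _).trans
        (e2.symm.prodCongr e3.symm)))⟩

/-- the isomorphism -/
theorem iso_pair {b1 b2 r g1 g2 t p q : ℕ} (hb1 : b1 ≠ 0) (hb2 : b2 ≠ 0) (hr1 : rr b1 = r)
    (hr2 : rr b2 = r) (h1 : ¬ 2 ∣ b1 ∨ 4 ∣ b1) (h2 : ¬ 2 ∣ b2 ∨ 4 ∣ b2) (hg1 : b1 = r * g1)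
    (hg2 : b2 = r * g2) (ht1 : t.Coprime b1) (ht2 : t.Coprime b2) (hp : p.Prime) (hq : q.Prime)
    (hpe : p = g2 * t + 1) (hqe : q = g1 * t + 1) (hpb : ¬ p ∣ b1) (hqb : ¬ q ∣ b2) :
    UI (b1 * p) (b2 * q) := by
  have hr0 : 0 < r := hr1 ▸ rr_pos b1
  obtain ⟨g1', hg1', ⟨e1⟩⟩ := structure_units b1 hb1 h1
  obtain ⟨g2', hg2', ⟨e2⟩⟩ := structure_units b2 hb2 h2
  have hgg1 : g1' = g1 := by
    rw [hr1, hg1] at hg1'
    exact (Nat.eq_of_mul_eq_mul_left hr0 hg1').symm
  have hgg2 : g2' = g2 := by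
    rw [hr2, hg2] at hg2'
    exact (Nat.eq_of_mul_eq_mul_left hr0 hg2').symm
  rw [hr1, hgg1] at e1
  rw [hr2, hgg2] at e2
  have c1 : b1.Coprime p := ((Nat.Prime.coprime_iff_not_dvd hp).2 hpb).symm
  have c2 : b2.Coprime q := ((Nat.Prime.coprime_iff_not_dvd hq).2 hqb).symm
  obtain ⟨f1⟩ := units_mul c1
  obtain ⟨f2⟩ := units_mul c2
  obtain ⟨p1⟩ := units_prime hp
  obtain ⟨p2⟩ := units_prime hq
  have hp1 : p - 1 = g2 * t := by omega
  have hq1 : q - 1 = g1 * t := by omega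
  rw [hp1] at p1
  rw [hq1] at p2
  have hd1 : g1 ∣ b1 := ⟨r, by rw [mul_comm]; exact hg1⟩
  have hd2 : g2 ∣ b2 := ⟨r, by rw [mul_comm]; exact hg2⟩
  obtain ⟨m1⟩ := cy_mul (Nat.Coprime.coprime_dvd_left hd1 ht1.symm)
  obtain ⟨m2⟩ := cy_mul (Nat.Coprime.coprime_dvd_left hd2 ht2.symm)
  -- `(r × g1) × (g2 × t) ≃ (r × g2) × (g1 × t)`
  exact ⟨(f1.trans ((e1.prodCongr (p1.trans m2)).trans (MulEquiv.prodProdProdComm _ _ _ _))).trans
    (f2.trans (e2.prodCongr (p2.trans m1))).symm⟩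

/-- scaling by a coprime factor -/
theorem UI.scale {a b m : ℕ} (h : UI a b) (ha : m.Coprime a) (hb : m.Coprime b) :
    UI (m * a) (m * b) := by
  obtain ⟨e⟩ := h
  obtain ⟨e1⟩ := units_mul ha
  obtain ⟨e2⟩ := units_mul hb
  exact ⟨e1.trans (((MulEquiv.refl _).prodCongr e).trans e2.symm)⟩

end Pool.Agent.UGrp
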