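import Pool.Agent.SL.Fin
import Pool.Agent.SL.Fun
import Pool.Agent.SL.BwE
import Pool.Agent.SL.Dhl

/-!
# MP_fa09f8_nt: many primes among linear forms (after SL/Fin.lean and SL/Dhl.lean of helper64)
-/

set_option autoImplicit false

namespace Pool.Agent.SL

open Finset Filter Topology Pool.Agent.MT

variable {k : ℕ}

open Classical in
theorem discreteM (μ : ℕ) (hμ : 1 ≤ μ) (s h : Fin k → ℕ) (hn : Nondeg s h) (hadm : Adm s h) (M : ℕ) (hM : 1 ≤ M) (r θ : ℝ)
    (Y : (Fin k → ℕ) → ℝ) (hY : Grid M r Y) (hθ : ∀ v, Y v ≠ 0 → ∑ i, ((v i : ℝ) + 1) / M ≤ θ) (hθ2 : θ < 1 / 2)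
    (hIJ : (μ : ℝ) * T1 M (fun _ => 1 / (M : ℝ)) Y < ∑ m, T2 M (fun _ => 1 / (M : ℝ)) m Y Y)
    (hEH : ∀ D b, Large s h D → Good s h D b → ∀ m, ∀ t ∈ boxes M Y, ∀ t' ∈ boxes M Y,
      EH s h (primorial D) b m t t') :
    ∀ x : ℕ, ∃ n ≥ x, μ < (Finset.univ.filter fun i => (s i * n + h i).Prime).card := by
  classical
  by_contra hcon
  push Not at hcon
  obtain ⟨x, hx⟩ := hcon
  obtain ⟨C, hC0, hC⟩ := PP_le
  set a : ℝ := T1 M (fun _ => 1 / (M : ℝ)) Y with ha
  set a' : ℝ := ∑ m, T2 M (fun _ => 1 / (M : ℝ)) m Y Y with ha'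
  have hμ1 : (1 : ℝ) ≤ μ := by exact_mod_cast hμ
  have hμ0 : (0 : ℝ) < μ := by linarith
  set δ : ℝ := a' - μ * a with hδ
  have hδ0 : 0 < δ := by rw [hδ]; linarith
  have ha0 : 0 ≤ a := by
    rw [ha]; unfold T1
    exact Finset.sum_nonneg fun v _ => mul_nonneg (sq_nonneg _) (Finset.prod_nonneg fun _ _ => by positivity)
  have hk1 : (0 : ℝ) < (k : ℝ) + 1 := by positivity
  have hr := hY.s_nonneg
  -- choose D
  have hE1 : 0 < δ / (8 * μ) / (r ^ 2 * C ^ k + 1) := by positivity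
  have hE2 : 0 < δ / 16 / (((k : ℝ) + 1) * (r * r * C ^ (k + 1) + 1)) := by positivity
  obtain ⟨D0, hD0⟩ := large_exists s h hn
  obtain ⟨D, ⟨⟨⟨hDa, hDb⟩, hDc⟩, hDL⟩, hD2⟩ :=
    ((((exp_small (2 * (k : ℝ) ^ 2) _ hE1).and (exp_small (6 * (k : ℝ) ^ 2) _ hE2)).and
      (exp_small (2 ^ (k + 2)) _ hE2)).and (eventually_ge_atTop D0)).and (eventually_ge_atTop 2) |>.exists
  have hL := hD0 D hDL
  obtain ⟨b, hb⟩ := good_exists s h hadm D
  have hCD : ∀ N, D < N → PP (qq D N) ≤ C * XX D N := fun N hN => hC D N hD2 hN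
  set ε1 : ℝ := δ / (16 * ((k : ℝ) + 1)) with hε1
  have hε10 : 0 < ε1 := by rw [hε1]; positivity
  have e1 := S1_asym s h D M b hD2 hM hL r θ C Y hY hθ hθ2 hC0 hCD (δ / (8 * μ)) (by positivity)
  have e2 : ∀ᶠ N : ℕ in atTop, ∀ m ∈ (univ : Finset (Fin k)), |S2 s h b m (lamY D N M Y) (lamY D N M Y) -
      N / (primorial D : ℕ) * XX D N ^ k * Real.log N * T2 M (fun _ => 1 / (M : ℝ)) m Y Y| ≤
      N / (primorial D : ℕ) * XX D N ^ k * Real.log N *
        (r * r * (C ^ (k + 1) * (Real.exp (6 * (k : ℝ) ^ 2 / D) + Real.exp (2 ^ (k + 2) / D) - 2)) + ε1) := by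
    rw [Filter.eventually_all_finset]
    intro m _
    exact S2_asym s h D M b hD2 hM hL m r C Y hY hC0 hCD (hEH D b hL hb m) ε1 hε10
  set C0 : ℕ := 1 + ∑ j, (2 * s j + h j) with hC0'
  have hC01 : (1 : ℝ) ≤ C0 := by
    have : 1 ≤ C0 := by omega
    exact_mod_cast this
  have hμa : 0 ≤ μ * a := by positivity
  have hε2 : 0 < δ / 4 / (μ * a + δ) := by positivity
  have e3 := log_ratio (C0 : ℝ) hC01 _ hε2
  obtain ⟨N, ⟨⟨⟨⟨h1, h2⟩, h3⟩, hNx⟩, hND⟩, hN2⟩ :=
    ((((e1.and e2).and e3).and (eventually_ge_atTop x)).and (eventually_gt_atTop D)).and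
      (eventually_ge_atTop 2) |>.exists
  have hN0 : (0 : ℝ) < N := by exact_mod_cast (by omega : 0 < N)
  have hlog : 0 < Real.log N := Real.log_pos (by exact_mod_cast hN2)
  have hX := XX_pos D N hN2
  have hW : (0 : ℝ) < (primorial D : ℕ) := by exact_mod_cast primorial_pos D
  set B : ℝ := N / (primorial D : ℕ) * XX D N ^ k with hB
  have hB0 : 0 < B := by rw [hB]; positivity
  have hS1 : 0 ≤ S1 s h b (lamY D N M Y) := Finset.sum_nonneg fun _ _ => sq_nonneg _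
  -- at most `μ` primes
  have hlogC : 0 ≤ Real.log (C0 * N) := by
    apply Real.log_nonneg
    have : (1 : ℝ) ≤ N := by exact_mod_cast (by omega : 1 ≤ N)
    nlinarith
  have key : ∑ m, S2 s h b m (lamY D N M Y) (lamY D N M Y) ≤
      μ * Real.log (C0 * N) * S1 s h b (lamY D N M Y) := by
    unfold S2 S1
    rw [Finset.sum_comm, Finset.mul_sum]
    refine Finset.sum_le_sum fun n hnr => ?_
    have hnN : N ≤ n := (Finset.mem_Ico.1 (Finset.mem_filter.1 hnr).1).1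
    have hw : 0 ≤ LamW s h (lamY D N M Y) n ^ 2 := sq_nonneg _
    have hsum : ∑ m, th (s m * n + h m) ≤ μ * Real.log (C0 * N) := by
      calc ∑ m, th (s m * n + h m)
          = ∑ m ∈ Finset.univ.filter (fun i => (s i * n + h i).Prime), th (s m * n + h m) := by
            rw [Finset.sum_filter]
            refine Finset.sum_congr rfl fun m _ => ?_
            split_ifs with hp
            · rfl
            · exact th_eq_zero hp
        _ ≤ ∑ m ∈ Finset.univ.filter (fun i => (s i * n + h i).Prime), Real.log (C0 * N) :=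
            Finset.sum_le_sum fun i _ => th_le s h _ b N n (by omega) hnr i
        _ = ((Finset.univ.filter (fun i => (s i * n + h i).Prime)).card : ℝ) * Real.log (C0 * N) := by
            rw [Finset.sum_const, nsmul_eq_mul]
        _ ≤ μ * Real.log (C0 * N) := by
            apply mul_le_mul_of_nonneg_right _ hlogC
            exact_mod_cast hx n (hNx.trans hnN)
    calc ∑ m, th (s m * n + h m) * (LamW s h (lamY D N M Y) n * LamW s h (lamY D N M Y) n)
        = (∑ m, th (s m * n + h m)) * LamW s h (lamY D N M Y) n ^ 2 := by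
          rw [Finset.sum_mul]
          exact Finset.sum_congr rfl fun m _ => by ring
      _ ≤ _ := mul_le_mul_of_nonneg_right hsum hw
  -- lower bound
  set E2 : ℝ := r * r * (C ^ (k + 1) * (Real.exp (6 * (k : ℝ) ^ 2 / D) + Real.exp (2 ^ (k + 2) / D) - 2)) with hE2'
  have hE2b : E2 ≤ δ / (8 * ((k : ℝ) + 1)) := by
    have c1 : Real.exp (6 * (k : ℝ) ^ 2 / D) + Real.exp (2 ^ (k + 2) / D) - 2 ≤
        2 * (δ / 16 / (((k : ℝ) + 1) * (r * r * C ^ (k + 1) + 1))) := by linarith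
    have c2 : E2 = (r * r * C ^ (k + 1)) *
        (Real.exp (6 * (k : ℝ) ^ 2 / D) + Real.exp (2 ^ (k + 2) / D) - 2) := by rw [hE2']; ring
    rw [c2]
    have c3 : 0 ≤ r * r * C ^ (k + 1) := by positivity
    refine (mul_le_mul_of_nonneg_left c1 c3).trans ?_
    rw [div_div, ← mul_assoc, mul_comm (r * r * C ^ (k + 1)) 2, mul_assoc, ← mul_div_assoc, ← mul_div_assoc,
      div_le_div_iff₀ (by positivity) (by positivity)]
    have c4 : r * r * C ^ (k + 1) ≤ r * r * C ^ (k + 1) + 1 := by linarith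
    have c5 : 0 < δ * ((k : ℝ) + 1) := by positivity
    nlinarith [mul_le_mul_of_nonneg_left c4 c5.le]
  have hlow : B * Real.log N * (a' - δ / 4) ≤ ∑ m, S2 s h b m (lamY D N M Y) (lamY D N M Y) := by
    have c1 : ∀ m : Fin k, B * Real.log N * (T2 M (fun _ => 1 / (M : ℝ)) m Y Y - (E2 + ε1)) ≤
        S2 s h b m (lamY D N M Y) (lamY D N M Y) := by
      intro m
      have := (abs_le.1 (h2 m (Finset.mem_univ m))).1
      linarith
    have c2 := Finset.sum_le_sum fun m (_ : m ∈ (univ : Finset (Fin k))) => c1 m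
    rw [← Finset.mul_sum, Finset.sum_sub_distrib] at c2
    refine le_trans ?_ c2
    refine mul_le_mul_of_nonneg_left ?_ (by positivity)
    simp only [Finset.sum_const, Finset.card_univ, Fintype.card_fin, nsmul_eq_mul]
    have c3 : (k : ℝ) * (E2 + ε1) ≤ δ / 4 := by
      have d1 : (k : ℝ) * E2 ≤ δ / 8 := by
        have : (k : ℝ) * E2 ≤ k * (δ / (8 * ((k : ℝ) + 1))) := mul_le_mul_of_nonneg_left hE2b (Nat.cast_nonneg k)
        refine this.trans ?_
        rw [← mul_div_assoc, div_le_div_iff₀ (by positivity) (by positivity)]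
        nlinarith
      have d2 : (k : ℝ) * ε1 ≤ δ / 8 := by
        rw [hε1, ← mul_div_assoc, div_le_div_iff₀ (by positivity) (by positivity)]
        nlinarith
      linarith
    linarith
  -- upper bound
  have hup : S1 s h b (lamY D N M Y) ≤ B * (a + δ / (4 * μ)) := by
    refine h1.trans (mul_le_mul_of_nonneg_left ?_ hB0.le)
    have c1 : r ^ 2 * (C ^ k * (Real.exp (2 * (k : ℝ) ^ 2 / D) - 1)) ≤ δ / (8 * μ) := by
      have c3 : 0 ≤ r ^ 2 * C ^ k := by positivity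
      have c4 := mul_le_mul_of_nonneg_left hDa.le c3
      have c5 : r ^ 2 * C ^ k * (δ / (8 * μ) / (r ^ 2 * C ^ k + 1)) ≤ δ / (8 * μ) := by
        rw [← mul_div_assoc, div_le_iff₀ (by positivity)]
        have c6 : 0 < δ / (8 * μ) := by positivity
        nlinarith
      calc _ = r ^ 2 * C ^ k * (Real.exp (2 * (k : ℝ) ^ 2 / D) - 1) := by ring
        _ ≤ _ := c4
        _ ≤ _ := c5
    have c7 : δ / (4 * μ) = δ / (8 * μ) + δ / (8 * μ) := by field_simp; ring
    linarith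
  have hfin : B * Real.log N * (a' - δ / 4) ≤
      μ * ((1 + δ / 4 / (μ * a + δ)) * Real.log N) * (B * (a + δ / (4 * μ))) := by
    calc _ ≤ _ := hlow
      _ ≤ _ := key
      _ ≤ μ * ((1 + δ / 4 / (μ * a + δ)) * Real.log N) * S1 s h b (lamY D N M Y) :=
          mul_le_mul_of_nonneg_right (mul_le_mul_of_nonneg_left h3 hμ0.le) hS1
      _ ≤ _ := mul_le_mul_of_nonneg_left hup (by positivity)
  have hfin2 : a' - δ / 4 ≤ (1 + δ / 4 / (μ * a + δ)) * (μ * a + δ / 4) := by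
    have hBl : 0 < B * Real.log N := by positivity
    have : B * Real.log N * (a' - δ / 4) ≤
        B * Real.log N * ((1 + δ / 4 / (μ * a + δ)) * (μ * a + δ / 4)) := by
      refine hfin.trans (le_of_eq ?_)
      have c8 : μ * (a + δ / (4 * μ)) = μ * a + δ / 4 := by field_simp
      rw [← c8]
      ring
    exact le_of_mul_le_mul_left this hBl
  have hfin3 : δ / 4 / (μ * a + δ) * (μ * a + δ / 4) ≤ δ / 4 := by
    rw [div_mul_eq_mul_div, div_le_iff₀ (by positivity)]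
    nlinarith
  have : a' = μ * a + δ := by rw [hδ]; ring
  linarith

open Classical in
/-- more than `μ` primes among `k` linear forms -/
def DHLM (k μ : ℕ) : Prop :=
  ∀ s h : Fin k → ℕ, (∀ i, 0 < s i) → (∀ i j, i ≠ j → s i * h j ≠ s j * h i) →
    (∀ p : ℕ, p.Prime → ∃ n : ℕ, ∀ i, ¬ p ∣ s i * n + h i) →
    ∀ x : ℕ, ∃ n ≥ x, μ < (Finset.univ.filter fun i => (s i * n + h i).Prime).card

open Pool.Agent.BGG in
theorem dhlM_of_BV (hBV : ∀ θ : ℝ, 0 < θ → θ < 1 / 2 → BVs θ) (μ : ℕ) (hμ : 1 ≤ μ) :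
    ∃ k : ℕ, DHLM k μ := by
  obtain ⟨k0, hk0⟩ := fun_main (1 / 5) (1 / 2) (2 * μ + 1) (by norm_num) (by norm_num) (by norm_num)
    (by norm_num)
  obtain ⟨M, Y, p, I0, hM, hY, hY0, hYθ, hI0, hp, hkp, h1, h2, -⟩ := hk0 (k0 + 2) (by omega)
  refine ⟨k0 + 2, ?_⟩
  intro s h hs hdet hadm
  refine discreteM μ hμ s h ⟨hs, hdet⟩ hadm M hM 1 (1 / 5) Y hY hYθ (by norm_num) ?_ ?_
  · have h3 : ∑ m : Fin (k0 + 2), (1 - 1 / 2 : ℝ) * p * I0 ≤ ∑ m, T2 M (fun _ => 1 / (M : ℝ)) m Y Y :=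
      Finset.sum_le_sum fun m _ => h2 m
    rw [Finset.sum_const, Finset.card_univ, Fintype.card_fin, nsmul_eq_mul] at h3
    have h4 : (μ : ℝ) * T1 M (fun _ => 1 / (M : ℝ)) Y ≤ μ * I0 :=
      mul_le_mul_of_nonneg_left h1 (Nat.cast_nonneg μ)
    have h5 : ((2 * μ + 1 : ℝ)) * I0 ≤ ((k0 + 2 : ℕ) : ℝ) * p * I0 :=
      mul_le_mul_of_nonneg_right hkp hI0.le
    nlinarith
  · intro D b hL hG m t ht t' ht'
    obtain ⟨v, ⟨_, hv⟩, rfl⟩ := mem_boxes.1 ht
    obtain ⟨v', ⟨_, hv'⟩, rfl⟩ := mem_boxes.1 ht'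
    refine EH_of_BV hBV s h D b hL hG m _ _ (fun i => by positivity) (fun i => by positivity) ?_
    have := hYθ v hv
    have := hYθ v' hv'
    linarith

end Pool.Agent.SL
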