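import Pool.Agent.UGrp.Soft

/-!
# MP_fa09f8_nt: all multiples of a fixed number are good shifts

Forms `ℓ_i R (P n + 1) + 1` with distinct odd primes `ℓ_i`.
-/

set_option autoImplicit false

namespace Pool.Agent.UGrp

open Pool.Agent.SL

private theorem pigeon2 {k : ℕ} (P : Fin k → Fin k → ℕ → Prop)
    (h : ∀ x : ℕ, ∃ n ≥ x, ∃ i j, P i j n) : ∃ i j, ∀ x : ℕ, ∃ n ≥ x, P i j n := by
  by_contra hcon
  push Not at hcon
  choose f hf using hcon
  obtain ⟨n, hn, i, j, hP⟩ := h (∑ i, ∑ j, f i j)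
  refine hf i j n ?_ hP
  refine le_trans ?_ hn
  refine le_trans ?_ (Finset.single_le_sum (f := fun i => ∑ j, f i j) (fun _ _ => Nat.zero_le _)
    (Finset.mem_univ i))
  exact Finset.single_le_sum (f := fun j => f i j) (fun _ _ => Nat.zero_le _) (Finset.mem_univ j)

/-- two odd primes `a < b`, `c = a^u b^v m`: the pair `c a`, `c b` -/
theorem pair_two {a b u v m R1 t' p q : ℕ} (ha : a.Prime) (hb : b.Prime) (ha2 : a ≠ 2) (hb2 : b ≠ 2)
    (hab : a < b) (hma : m.Coprime a) (hmb : m.Coprime b) (hR1a : R1.Coprime a)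
    (hR1b : R1.Coprime b) (hta : t'.Coprime a) (htb : t'.Coprime b)
    (hp : p.Prime) (hq : q.Prime) (hpe : p = b * (a ^ u * b ^ v * R1) * t' + 1)
    (hqe : q = a * (a ^ u * b ^ v * R1) * t' + 1) (hm : 0 < m)
    (hpl : a ^ (u + 2) * b ^ (v + 2) * m < p) (hql : a ^ (u + 2) * b ^ (v + 2) * m < q) :
    UI (a ^ (u + 1) * b ^ (v + 1) * m * a * p) (a ^ (u + 1) * b ^ (v + 1) * m * b * q) := by
  have hcab : a.Coprime b := (Nat.coprime_primes ha hb).2 hab.ne
  have ha0 := ha.pos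
  have hb0 := hb.pos
  set b1 := a ^ (u + 2) * b ^ (v + 1) with hb1
  set b2 := a ^ (u + 1) * b ^ (v + 2) with hb2'
  have hcop : ∀ i j : ℕ, (a ^ i).Coprime (b ^ j) := fun i j => Nat.Coprime.pow _ _ hcab
  have hodd : ∀ i j : ℕ, ¬ 2 ∣ a ^ i * b ^ j := by
    intro i j h
    rcases (Nat.Prime.dvd_mul Nat.prime_two).1 h with h | h
    · exact ha2 ((Nat.prime_dvd_prime_iff_eq Nat.prime_two ha).1 (Nat.prime_two.dvd_of_dvd_pow h)).symm
    · exact hb2 ((Nat.prime_dvd_prime_iff_eq Nat.prime_two hb).1 (Nat.prime_two.dvd_of_dvd_pow h)).symm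
  have hrr : ∀ i j : ℕ, rr (a ^ (i + 1) * b ^ (j + 1)) = a * b := by
    intro i j
    rw [rr_mul (hcop _ _), rr_odd_pow ha ha2, rr_odd_pow hb hb2]
  have hb1le : b1 * 1 ≤ a ^ (u + 2) * b ^ (v + 2) * m := by
    rw [hb1]
    apply Nat.mul_le_mul _ hm
    exact Nat.mul_le_mul_left _ (Nat.pow_le_pow_right hb0 (by omega))
  have hb2le : b2 * 1 ≤ a ^ (u + 2) * b ^ (v + 2) * m := by
    rw [hb2']
    apply Nat.mul_le_mul _ hm
    exact Nat.mul_le_mul_right _ (Nat.pow_le_pow_right ha0 (by omega))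
  have hb10 : 0 < b1 := by rw [hb1]; positivity
  have hb20 : 0 < b2 := by rw [hb2']; positivity
  have hcopb : ∀ z : ℕ, z.Coprime a → z.Coprime b → ∀ i j : ℕ, z.Coprime (a ^ i * b ^ j) :=
    fun z hza hzb i j => Nat.Coprime.mul_right (Nat.Coprime.pow_right _ hza)
      (Nat.Coprime.pow_right _ hzb)
  have hU : UI (b1 * p) (b2 * q) := by
    refine iso_pair (r := a * b) (g1 := a ^ (u + 1) * b ^ v) (g2 := a ^ u * b ^ (v + 1))
      (t := R1 * t') hb10.ne' hb20.ne' (hrr (u + 1) v) (hrr u (v + 1)) (Or.inl (hodd _ _))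
      (Or.inl (hodd _ _)) (by rw [hb1]; ring) (by rw [hb2']; ring)
      (hcopb _ (Nat.Coprime.mul_left hR1a hta) (Nat.Coprime.mul_left hR1b htb) _ _)
      (hcopb _ (Nat.Coprime.mul_left hR1a hta) (Nat.Coprime.mul_left hR1b htb) _ _) hp hq
      (by rw [hpe]; ring) (by rw [hqe]; ring) ?_ ?_
    · intro h
      have := Nat.le_of_dvd hb10 h
      omega
    · intro h
      have := Nat.le_of_dvd hb20 h
      omega
  have hmle : 1 * m ≤ a ^ (u + 2) * b ^ (v + 2) * m :=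
    Nat.mul_le_mul_right _ (Nat.mul_pos (pow_pos ha0 _) (pow_pos hb0 _))
  have hmp : m.Coprime p := by
    refine ((Nat.Prime.coprime_iff_not_dvd hp).2 fun hd => ?_).symm
    have := Nat.le_of_dvd hm hd
    omega
  have hmq : m.Coprime q := by
    refine ((Nat.Prime.coprime_iff_not_dvd hq).2 fun hd => ?_).symm
    have := Nat.le_of_dvd hm hd
    omega
  have := hU.scale (Nat.Coprime.mul_right (hcopb m hma hmb _ _) hmp)
    (Nat.Coprime.mul_right (hcopb m hma hmb _ _) hmq)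
  have e1 : m * (b1 * p) = a ^ (u + 1) * b ^ (v + 1) * m * a * p := by rw [hb1]; ring
  have e2 : m * (b2 * q) = a ^ (u + 1) * b ^ (v + 1) * m * b * q := by rw [hb2']; ring
  rwa [e1, e2] at this

/-- **All multiples** of some `L` are good shifts. -/
theorem mult_of_DHL {k : ℕ} (hD : DHL k) (ℓ : Fin k → ℕ) (hℓ : ∀ i, (ℓ i).Prime)
    (hℓ2 : ∀ i, ℓ i ≠ 2) (hinj : Function.Injective ℓ) (N : ℕ) (hN : 0 < N)
    (hsq : ∀ i, ℓ i ^ 2 ∣ N) (hdiff : ∀ i j, ℓ i < ℓ j → (ℓ j - ℓ i) ∣ N) :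
    {n : ℕ | Nonempty ((ZMod n)ˣ ≃* (ZMod (n + N))ˣ)}.Infinite := by
  classical
  -- the valuations, minus one
  set v : Fin k → ℕ := fun i => N.factorization (ℓ i) - 1 with hv
  have hv1 : ∀ i, N.factorization (ℓ i) = v i + 1 := fun i => by
    have := ((hℓ i).pow_dvd_iff_le_factorization hN.ne').1 (hsq i)
    simp only [hv]
    omega
  have hvpos : ∀ i, 0 < v i := fun i => by
    have := ((hℓ i).pow_dvd_iff_le_factorization hN.ne').1 (hsq i)
    simp only [hv]
    omega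
  set P : ℕ := ∏ i, ℓ i with hP
  set R0 : ℕ := ∏ i, ℓ i ^ v i with hR0
  have hP0 : 0 < P := Finset.prod_pos fun i _ => (hℓ i).pos
  have hR00 : 0 < R0 := Finset.prod_pos fun i _ => pow_pos (hℓ i).pos _
  have hcop : ∀ i j, i ≠ j → (ℓ i).Coprime (ℓ j) := fun i j h =>
    (Nat.coprime_primes (hℓ i) (hℓ j)).2 fun h2 => h (hinj h2)
  have hdP : ∀ i, ℓ i ∣ P := fun i => Finset.dvd_prod_of_mem _ (Finset.mem_univ i)
  have h1 := hD (fun i => ℓ i * R0 * P) (fun i => ℓ i * R0 + 1)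
    (fun i => Nat.mul_pos (Nat.mul_pos (hℓ i).pos hR00) hP0)
    (by
      intro i j hij h
      apply hij
      apply hinj
      have h2 : ℓ i * R0 * P * (ℓ j * R0 + 1) = ℓ i * ℓ j * R0 * R0 * P + ℓ i * (R0 * P) := by ring
      have h3 : ℓ j * R0 * P * (ℓ i * R0 + 1) = ℓ i * ℓ j * R0 * R0 * P + ℓ j * (R0 * P) := by ring
      rw [h2, h3] at h
      exact Nat.eq_of_mul_eq_mul_right (Nat.mul_pos hR00 hP0) (Nat.add_left_cancel h))
    (by
      intro p hp
      by_cases hpR : p ∣ R0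
      · refine ⟨0, fun i hd => ?_⟩
        rw [mul_zero, zero_add] at hd
        have h5 := (Nat.dvd_add_right (hpR.mul_left (ℓ i))).1 hd
        exact hp.one_lt.ne' (Nat.dvd_one.1 h5)
      · have hpP : ¬ p ∣ P := by
          intro hd
          obtain ⟨i, -, hi⟩ := (Prime.dvd_finsetProd_iff hp.prime _).1 hd
          apply hpR
          rw [hR0]
          refine (hi.trans (dvd_pow_self (ℓ i) (hvpos i).ne')).trans ?_
          exact Finset.dvd_prod_of_mem (fun i => ℓ i ^ v i) (Finset.mem_univ i)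
        have hcp : Nat.Coprime P p := ((Nat.Prime.coprime_iff_not_dvd hp).2 hpP).symm
        obtain ⟨n, hn⟩ : ∃ n : ℕ, p ∣ P * n + 1 := by
          have hu : IsUnit (P : ZMod p) := (ZMod.isUnit_iff_coprime P p).2 hcp
          obtain ⟨u, hu⟩ := hu
          have : NeZero p := ⟨hp.ne_zero⟩
          refine ⟨((u⁻¹ : (ZMod p)ˣ) * (-(1 : ZMod p)) : ZMod p).val, ?_⟩
          rw [← ZMod.natCast_eq_zero_iff]
          push_cast
          rw [ZMod.natCast_zmod_val, ← hu, ← mul_assoc, Units.mul_inv, one_mul]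
          ring
        refine ⟨n, fun i hd => ?_⟩
        have h4 : ℓ i * R0 * P * n + (ℓ i * R0 + 1) = ℓ i * R0 * (P * n + 1) + 1 := by ring
        rw [h4] at hd
        have h5 := (Nat.dvd_add_right (hn.mul_left (ℓ i * R0))).1 hd
        exact hp.one_lt.ne' (Nat.dvd_one.1 h5))
  obtain ⟨i, j, hPij⟩ := pigeon2 (fun i j n => i ≠ j ∧ (ℓ i * R0 * P * n + (ℓ i * R0 + 1)).Prime ∧
    (ℓ j * R0 * P * n + (ℓ j * R0 + 1)).Prime) h1
  have hij : i ≠ j := by
    obtain ⟨n, _, h, _⟩ := hPij 0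
    exact h
  have main : ∀ a c : Fin k, ℓ a < ℓ c → (∀ x : ℕ, ∃ n ≥ x,
      (ℓ a * R0 * P * n + (ℓ a * R0 + 1)).Prime ∧ (ℓ c * R0 * P * n + (ℓ c * R0 + 1)).Prime) →
      {n : ℕ | Nonempty ((ZMod n)ˣ ≃* (ZMod (n + N))ˣ)}.Infinite := by
    intro a c hac hx
    have hne : a ≠ c := fun h => by rw [h] at hac; exact absurd hac (lt_irrefl _)
    -- `R0`
    obtain ⟨R1, hR1, hR1a, hR1c⟩ : ∃ R1, R0 = ℓ a ^ v a * ℓ c ^ v c * R1 ∧ R1.Coprime (ℓ a) ∧
        R1.Coprime (ℓ c) := by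
      refine ⟨∏ x ∈ (Finset.univ.erase a).erase c, ℓ x ^ v x, ?_, ?_, ?_⟩
      · rw [hR0, ← Finset.mul_prod_erase Finset.univ _ (Finset.mem_univ a),
          ← Finset.mul_prod_erase (Finset.univ.erase a) _
            (Finset.mem_erase.2 ⟨hne.symm, Finset.mem_univ c⟩), mul_assoc]
      · apply Nat.Coprime.prod_left
        intro x hx
        rw [Finset.mem_erase, Finset.mem_erase] at hx
        exact Nat.Coprime.pow_left _ (hcop x a hx.2.1)
      · apply Nat.Coprime.prod_left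
        intro x hx
        rw [Finset.mem_erase, Finset.mem_erase] at hx
        exact Nat.Coprime.pow_left _ (hcop x c hx.1)
    -- `N`
    obtain ⟨w, hw⟩ := hdiff a c hac
    have hd0 : 0 < ℓ c - ℓ a := by omega
    have hw0 : w ≠ 0 := by rintro rfl; rw [mul_zero] at hw; omega
    have hda : (ℓ c - ℓ a).Coprime (ℓ a) := by
      refine ((Nat.Prime.coprime_iff_not_dvd (hℓ a)).2 fun hd => ?_).symm
      have h2 : ℓ a ∣ ℓ c := (Nat.dvd_sub_iff_left hac.le dvd_rfl).1 hd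
      exact hac.ne ((Nat.prime_dvd_prime_iff_eq (hℓ a) (hℓ c)).1 h2)
    have hdc : (ℓ c - ℓ a).Coprime (ℓ c) := by
      refine ((Nat.Prime.coprime_iff_not_dvd (hℓ c)).2 fun hd => ?_).symm
      have := Nat.le_of_dvd hd0 hd
      have := (hℓ a).pos
      omega
    have hfw : ∀ x : Fin k, (ℓ c - ℓ a).Coprime (ℓ x) → w.factorization (ℓ x) = v x + 1 := by
      intro x hx
      have h0 : (ℓ c - ℓ a).factorization (ℓ x) = 0 :=
        Nat.factorization_eq_zero_of_not_dvd fun hd =>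
          (Nat.Prime.coprime_iff_not_dvd (hℓ x)).1 hx.symm hd
      rw [← hv1 x, hw, Nat.factorization_mul hd0.ne' hw0, Finsupp.add_apply, h0, zero_add]
    obtain ⟨m, hm, hma, hmc⟩ : ∃ m, w = ℓ a ^ (v a + 1) * ℓ c ^ (v c + 1) * m ∧ m.Coprime (ℓ a) ∧
        m.Coprime (ℓ c) := by
      have h3 := Nat.ordProj_mul_ordCompl_eq_self w (ℓ a)
      rw [hfw a hda] at h3
      set w1 := w / ℓ a ^ (v a + 1) with hw1
      have hw1a : ¬ ℓ a ∣ w1 := by
        have := Nat.not_dvd_ordCompl (hℓ a) hw0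
        rwa [hfw a hda] at this
      have hw10 : w1 ≠ 0 := by rintro h; rw [h] at hw1a; exact hw1a (dvd_zero _)
      have hf1 : w1.factorization (ℓ c) = v c + 1 := by
        have h4 := hfw c hdc
        rw [← h3, Nat.factorization_mul (pow_pos (hℓ a).pos _).ne' hw10, Finsupp.add_apply,
          Nat.factorization_eq_zero_of_not_dvd, zero_add] at h4
        · exact h4
        · intro hd
          exact hne (hinj ((Nat.prime_dvd_prime_iff_eq (hℓ c) (hℓ a)).1
            ((hℓ c).dvd_of_dvd_pow hd)).symm)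
      have h5 := Nat.ordProj_mul_ordCompl_eq_self w1 (ℓ c)
      rw [hf1] at h5
      refine ⟨w1 / ℓ c ^ (v c + 1), ?_, ?_, ?_⟩
      · rw [mul_assoc, h5, h3]
      · refine ((Nat.Prime.coprime_iff_not_dvd (hℓ a)).2 fun hd => hw1a ?_).symm
        rw [← h5]
        exact hd.mul_left _
      · refine ((Nat.Prime.coprime_iff_not_dvd (hℓ c)).2 fun hd => ?_).symm
        have := Nat.not_dvd_ordCompl (hℓ c) hw10
        rw [hf1] at this
        exact this hd
    have hm0 : 0 < m := by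
      rcases Nat.eq_zero_or_pos m with h | h
      · rw [h, mul_zero] at hm
        exact absurd hm hw0
      · exact h
    have key : Gd (w * ℓ a) (w * ℓ c) := by
      refine ⟨Nat.mul_lt_mul_of_pos_left hac (Nat.pos_of_ne_zero hw0), fun x => ?_⟩
      obtain ⟨n, hn, hpa, hpc⟩ := hx (x + ℓ a ^ (v a + 2) * ℓ c ^ (v c + 2) * m)
      obtain ⟨t, ht⟩ : ∃ t, t = P * n + 1 := ⟨_, rfl⟩
      have e1 : ℓ a * R0 * P * n + (ℓ a * R0 + 1) = ℓ a * R0 * t + 1 := by rw [ht]; ring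
      have e2 : ℓ c * R0 * P * n + (ℓ c * R0 + 1) = ℓ c * R0 * t + 1 := by rw [ht]; ring
      rw [e1] at hpa
      rw [e2] at hpc
      have hnt : n ≤ t := by
        rw [ht]
        exact (Nat.le_mul_of_pos_left n hP0).trans (Nat.le_add_right _ _)
      have hta : t ≤ ℓ a * R0 * t := Nat.le_mul_of_pos_left t (Nat.mul_pos (hℓ a).pos hR00)
      have htc : t ≤ ℓ c * R0 * t := Nat.le_mul_of_pos_left t (Nat.mul_pos (hℓ c).pos hR00)
      have hct : ∀ z : Fin k, t.Coprime (ℓ z) := by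
        intro z
        refine ((Nat.Prime.coprime_iff_not_dvd (hℓ z)).2 fun hd => ?_).symm
        rw [ht] at hd
        have h5 := (Nat.dvd_add_right ((hdP z).mul_right n)).1 hd
        exact (hℓ z).one_lt.ne' (Nat.dvd_one.1 h5)
      refine ⟨ℓ c * R0 * t + 1, ℓ a * R0 * t + 1, by omega, by omega, hpc, hpa, ?_, ?_⟩
      · obtain ⟨e, he⟩ : ∃ e, ℓ c = ℓ a + e := ⟨ℓ c - ℓ a, by omega⟩
        rw [← Nat.mul_sub, he, Nat.add_sub_cancel_left]
        ring
      · rw [hm]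
        exact pair_two (hℓ a) (hℓ c) (hℓ2 a) (hℓ2 c) hac hma hmc hR1a hR1c (hct a) (hct c) hpc hpa
          (by rw [← hR1]) (by rw [← hR1]) hm0 (by omega) (by omega)
    have := key.infinite (Nat.mul_pos (Nat.pos_of_ne_zero hw0) (hℓ a).pos)
    rw [← Nat.mul_sub, mul_comm w, ← hw] at this
    exact this
  rcases lt_or_gt_of_ne (fun h => hij (hinj h) : ℓ i ≠ ℓ j) with h | h
  · exact main i j h fun x => by
      obtain ⟨n, hn, _, h2, h3⟩ := hPij x
      exact ⟨n, hn, h2, h3⟩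
  · exact main j i h fun x => by
      obtain ⟨n, hn, _, h2, h3⟩ := hPij x
      exact ⟨n, hn, h3, h2⟩

/-- there is `L` such that every positive multiple of `L` is a good shift -/
theorem exists_mult {k : ℕ} (hD : DHL k) : ∃ L : ℕ, 0 < L ∧ ∀ K : ℕ, 0 < K →
    {n : ℕ | Nonempty ((ZMod n)ˣ ≃* (ZMod (n + L * K))ˣ)}.Infinite := by
  classical
  set ℓ : Fin k → ℕ := fun i => Nat.nth Nat.Prime (i + 1) with hℓ
  have hp : ∀ i, (ℓ i).Prime := fun i => Nat.prime_nth_prime _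
  have hmono : StrictMono (Nat.nth Nat.Prime) := Nat.nth_strictMono Nat.infinite_setOfPred_prime
  have hinj : Function.Injective ℓ := by
    intro i j h
    have := hmono.injective h
    exact Fin.ext (by omega)
  have h2 : ∀ i, ℓ i ≠ 2 := by
    intro i h
    have h0 : Nat.nth Nat.Prime 0 = 2 := Nat.nth_prime_zero_eq_two
    have h1 : Nat.nth Nat.Prime 0 < Nat.nth Nat.Prime (i + 1) := hmono (by omega)
    rw [h0] at h1
    have h3 : Nat.nth Nat.Prime (i + 1) = 2 := h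
    omega
  set D : ℕ := ∏ i : Fin k, ∏ j : Fin k, if ℓ i < ℓ j then ℓ j - ℓ i else 1 with hDd
  refine ⟨(∏ i, ℓ i) ^ 2 * D, ?_, fun K hK => ?_⟩
  · apply Nat.mul_pos (pow_pos (Finset.prod_pos fun i _ => (hp i).pos) _)
    refine Finset.prod_pos fun i _ => Finset.prod_pos fun j _ => ?_
    split_ifs with h
    · omega
    · exact one_pos
  · refine mult_of_DHL hD ℓ hp h2 hinj _ ?_ ?_ ?_
    · refine Nat.mul_pos (Nat.mul_pos (pow_pos (Finset.prod_pos fun i _ => (hp i).pos) _) ?_) hK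
      refine Finset.prod_pos fun i _ => Finset.prod_pos fun j _ => ?_
      split_ifs with h
      · omega
      · exact one_pos
    · intro i
      exact ((pow_dvd_pow_of_dvd (Finset.dvd_prod_of_mem _ (Finset.mem_univ i)) 2).mul_right _).mul_right _
    · intro i j hij
      refine Dvd.dvd.mul_right (Dvd.dvd.mul_left ?_ _) _
      have h3 : (if ℓ i < ℓ j then ℓ j - ℓ i else 1) = ℓ j - ℓ i := if_pos hij
      rw [← h3]
      refine (Finset.dvd_prod_of_mem (fun j => if ℓ i < ℓ j then ℓ j - ℓ i else 1)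
        (Finset.mem_univ j)).trans ?_
      exact Finset.dvd_prod_of_mem (fun i => ∏ j : Fin k, if ℓ i < ℓ j then ℓ j - ℓ i else 1)
        (Finset.mem_univ i)

end Pool.Agent.UGrp
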