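import Pool.Agent.UGrp.Ramsey
import Pool.Agent.UGrp.Mult
import Pool.Agent.SL.Dhl

/-!
# MP_fa09f8_nt: the soft theorems
-/

set_option autoImplicit false

namespace Pool.Agent.UGrp

open Pool.Agent.SL Pool.Agent.MT Pool.Agent.BGG

/-- sets of integers with the same prime divisors -/
theorem ramsey {k : ℕ} (hk : 1 ≤ k) (hD : DHL k) (S : Finset ℕ)
    (hS : (∏ p ∈ (Finset.range (k + 2)).filter Nat.Prime, p) * k < S.card) (h0 : ∀ a ∈ S, 0 < a)
    (hpf : ∀ a ∈ S, ∀ b ∈ S, ∀ p : ℕ, p.Prime → (p ∣ a ↔ p ∣ b))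
    (h2 : (∀ a ∈ S, 8 ∣ a) ∨ ∀ a ∈ S, ∀ b ∈ S, a.factorization 2 = b.factorization 2) :
    ∃ a ∈ S, ∃ b ∈ S, Gd a b := by
  classical
  have hpf' : ∀ a ∈ S, ∀ b ∈ S, a.primeFactors = b.primeFactors := by
    intro a ha b hb
    ext p
    rw [Nat.mem_primeFactors, Nat.mem_primeFactors]
    constructor
    · rintro ⟨hp, hd, _⟩
      exact ⟨hp, (hpf a ha b hb p hp).1 hd, (h0 b hb).ne'⟩
    · rintro ⟨hp, hd, _⟩
      exact ⟨hp, (hpf a ha b hb p hp).2 hd, (h0 a ha).ne'⟩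
  rcases h2 with h2 | h2
  · exact ramsey_core hk hD S hS h0 hpf' (Or.inl h2)
  · have hSne : S.Nonempty := Finset.card_pos.1 (by omega)
    obtain ⟨a0, ha0⟩ := hSne
    set v := a0.factorization 2 with hv
    have hva : ∀ a ∈ S, 2 ^ v * (a / 2 ^ v) = a := fun a ha => by
      have h3 := Nat.ordProj_mul_ordCompl_eq_self a 2
      rw [h2 a ha a0 ha0] at h3
      exact h3
    have hodd : ∀ a ∈ S, ¬ 2 ∣ a / 2 ^ v := fun a ha => by
      have h3 := Nat.not_dvd_ordCompl Nat.prime_two (h0 a ha).ne'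
      rw [h2 a ha a0 ha0] at h3
      exact h3
    have hpos : ∀ a ∈ S, 0 < a / 2 ^ v := fun a ha => by
      rcases Nat.eq_zero_or_pos (a / 2 ^ v) with h | h
      · have := hva a ha
        rw [h, mul_zero] at this
        have := h0 a ha
        omega
      · exact h
    have hinj : Set.InjOn (fun a => a / 2 ^ v) S := by
      intro a ha b hb h
      have h' : a / 2 ^ v = b / 2 ^ v := h
      rw [← hva a ha, ← hva b hb, h']
    obtain ⟨a', ha', b', hb', hG⟩ := ramsey_core hk hD (S.image fun a => a / 2 ^ v)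
      (by rw [Finset.card_image_of_injOn hinj]; exact hS)
      (by
        intro a' ha'
        obtain ⟨a, ha, rfl⟩ := Finset.mem_image.1 ha'
        exact hpos a ha)
      (by
        intro a' ha' b' hb'
        obtain ⟨a, ha, rfl⟩ := Finset.mem_image.1 ha'
        obtain ⟨b, hb, rfl⟩ := Finset.mem_image.1 hb'
        have key : ∀ x ∈ S, ∀ p : ℕ, p.Prime → (p ∣ x / 2 ^ v ↔ p ≠ 2 ∧ p ∣ x) := by
          intro x hx p hp
          constructor
          · intro h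
            refine ⟨?_, ?_⟩
            · rintro rfl
              exact hodd x hx h
            · rw [← hva x hx]
              exact h.mul_left _
          · rintro ⟨h1, h3⟩
            rw [← hva x hx] at h3
            rcases (Nat.Prime.dvd_mul hp).1 h3 with h4 | h4
            · exact absurd ((Nat.prime_dvd_prime_iff_eq hp Nat.prime_two).1
                (hp.dvd_of_dvd_pow h4)) h1
            · exact h4
        ext p
        rw [Nat.mem_primeFactors, Nat.mem_primeFactors]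
        constructor
        · rintro ⟨hp, hd, _⟩
          have h3 := (key a ha p hp).1 hd
          exact ⟨hp, (key b hb p hp).2 ⟨h3.1, (hpf a ha b hb p hp).1 h3.2⟩, (hpos b hb).ne'⟩
        · rintro ⟨hp, hd, _⟩
          have h3 := (key b hb p hp).1 hd
          exact ⟨hp, (key a ha p hp).2 ⟨h3.1, (hpf a ha b hb p hp).2 h3.2⟩, (hpos a ha).ne'⟩)
      (Or.inr (by
        intro a' ha'
        obtain ⟨a, ha, rfl⟩ := Finset.mem_image.1 ha'
        exact hodd a ha))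
    obtain ⟨a, ha, rfl⟩ := Finset.mem_image.1 ha'
    obtain ⟨b, hb, rfl⟩ := Finset.mem_image.1 hb'
    have hc : ∀ x ∈ S, (2 ^ v).Coprime (x / 2 ^ v) := fun x hx =>
      Nat.Coprime.pow_left v ((Nat.Prime.coprime_iff_not_dvd Nat.prime_two).2 (hodd x hx))
    have hG2 := hG.scale (2 ^ v) (by positivity) (hc a ha) (hc b hb)
    rw [hva a ha, hva b hb] at hG2
    exact ⟨a, ha, b, hb, hG2⟩

/-- the soft theorem -/
theorem soft (hBV : ∀ θ : ℝ, 0 < θ → θ < 1 / 2 → BVs θ) :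
    (∃ L : ℕ, 0 < L ∧ ∀ K : ℕ, 0 < K →
      {n : ℕ | Nonempty ((ZMod n)ˣ ≃* (ZMod (n + L * K))ˣ)}.Infinite) ∧
    (∃ k : ℕ, ∀ S : Finset ℕ, k ≤ S.card → (∀ a ∈ S, 0 < a) →
      (∀ a ∈ S, ∀ b ∈ S, ∀ p : ℕ, p.Prime → (p ∣ a ↔ p ∣ b)) →
      ((∀ a ∈ S, 8 ∣ a) ∨ ∀ a ∈ S, ∀ b ∈ S, padicValNat 2 a = padicValNat 2 b) →
      ∃ a ∈ S, ∃ b ∈ S, a < b ∧
        {n : ℕ | Nonempty ((ZMod n)ˣ ≃* (ZMod (n + (b - a)))ˣ)}.Infinite) := by
  obtain ⟨k, hk, hD⟩ := dhl_of_BV hBV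
  refine ⟨exists_mult hD, ⟨(∏ p ∈ (Finset.range (k + 2)).filter Nat.Prime, p) * k + 1, fun S hS h0 hpf h2 => ?_⟩⟩
  obtain ⟨a, ha, b, hb, hG⟩ := ramsey (by omega) hD S (by omega) h0 hpf (by
    rcases h2 with h2 | h2
    · exact Or.inl h2
    · right
      intro a ha b hb
      rw [Nat.factorization_def _ Nat.prime_two, Nat.factorization_def _ Nat.prime_two]
      exact h2 a ha b hb)
  exact ⟨a, ha, b, hb, hG.1, hG.infinite (h0 a ha)⟩

end Pool.Agent.UGrp
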