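import Pool.Agent.UGrp.Soft

/-!
# MP_fa09f8_nt: sets of integers with the same prime divisors
-/

set_option autoImplicit false

namespace Pool.Agent.UGrp

open Pool.Agent.SL

/-- a residue `c ≠ 0` mod `p` with `g_j c ≠ -1` for all `j` -/
theorem exists_res {k : ℕ} (g : Fin k → ℕ) (p : ℕ) (hp : p.Prime) (hp2 : p ≠ 2)
    (h : k + 1 < p ∨ ∀ i j, g i ≡ g j [MOD p]) : ∃ c : ℕ, ¬ p ∣ c ∧ ∀ j, ¬ p ∣ g j * c + 1 := by
  have hp3 : 3 ≤ p := by
    have := hp.two_le
    omega
  rcases h with h | h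
  · by_contra hcon
    push Not at hcon
    have hc : ∀ c ∈ Finset.Icc 1 (p - 1), ∃ j : Fin k, p ∣ g j * c + 1 := by
      intro c hc
      rw [Finset.mem_Icc] at hc
      exact hcon c (fun hd => by have := Nat.le_of_dvd (by omega) hd; omega)
    have hne : Nonempty (Fin k) := by
      obtain ⟨j, _⟩ := hc 1 (Finset.mem_Icc.2 ⟨le_rfl, by omega⟩)
      exact ⟨j⟩
    choose! f hf using hc
    have hk0 : (Finset.univ : Finset (Fin k)).card < (Finset.Icc 1 (p - 1)).card := by
      rw [Finset.card_univ, Fintype.card_fin, Nat.card_Icc]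
      omega
    obtain ⟨c, hc, c', hc', hne, hff⟩ := Finset.exists_ne_map_eq_of_card_lt_of_maps_to hk0
      (f := f) (fun c _ => Finset.mem_univ _)
    have h1 := hf c hc
    have h2 := hf c' hc'
    rw [hff] at h1
    rw [Finset.mem_Icc] at hc hc'
    have key : ∀ x y : ℕ, x < y → y < p → p ∣ g (f c') * x + 1 → p ∣ g (f c') * y + 1 → False := by
      intro x y hxy hy hx1 hy1
      have h3 := Nat.dvd_sub hy1 hx1
      have h4 : g (f c') * y + 1 - (g (f c') * x + 1) = g (f c') * (y - x) := by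
        rw [Nat.mul_sub]; omega
      rw [h4] at h3
      rcases (Nat.Prime.dvd_mul hp).1 h3 with h5 | h5
      · have := (Nat.dvd_add_right (h5.mul_right x)).1 hx1
        exact hp.one_lt.ne' (Nat.dvd_one.1 this)
      · have := Nat.le_of_dvd (by omega) h5
        omega
    rcases lt_or_gt_of_ne hne with h3 | h3
    · exact key c c' h3 (by omega) h1 h2
    · exact key c' c h3 (by omega) h2 h1
  · by_cases h0 : ∃ j0, p ∣ g j0 * 1 + 1
    · obtain ⟨j0, hj0⟩ := h0
      refine ⟨2, fun hd => by have := Nat.le_of_dvd (by norm_num) hd; omega, fun j hd => ?_⟩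
      have h1 : p ∣ g j * 1 + 1 := by
        have h2 : g j * 1 + 1 ≡ g j0 * 1 + 1 [MOD p] := ((h j j0).mul_right 1).add_right 1
        exact (Nat.modEq_zero_iff_dvd.1 (h2.trans (Nat.modEq_zero_iff_dvd.2 hj0)))
      have h2 : g j * 2 + 1 = (g j * 1 + 1) + g j := by ring
      rw [h2] at hd
      have h3 := (Nat.dvd_add_right h1).1 hd
      have h4 := (Nat.dvd_add_right (h3.mul_right 1)).1 h1
      exact hp.one_lt.ne' (Nat.dvd_one.1 h4)
    · push Not at h0
      exact ⟨1, fun hd => hp.one_lt.ne' (Nat.dvd_one.1 hd), h0⟩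

/-- the case of odd integers, and of integers divisible by `8` -/
theorem ramsey_core {k : ℕ} (hk : 1 ≤ k) (hD : DHL k) (S : Finset ℕ)
    (hS : (∏ p ∈ (Finset.range (k + 2)).filter Nat.Prime, p) * k < S.card) (h0 : ∀ a ∈ S, 0 < a)
    (hpf : ∀ a ∈ S, ∀ b ∈ S, a.primeFactors = b.primeFactors)
    (h2 : (∀ a ∈ S, 8 ∣ a) ∨ ∀ a ∈ S, ¬ 2 ∣ a) : ∃ a ∈ S, ∃ b ∈ S, Gd a b := by
  classical
  set P := ∏ p ∈ (Finset.range (k + 2)).filter Nat.Prime, p with hP
  have hP0 : 0 < P := Finset.prod_pos fun p hp => (Finset.mem_filter.1 hp).2.pos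
  have h24 : ∀ a ∈ S, ¬ 2 ∣ a ∨ 4 ∣ a := by
    intro a ha
    rcases h2 with h | h
    · exact Or.inr ((show 4 ∣ 8 by norm_num).trans (h a ha))
    · exact Or.inl (h a ha)
  have hst : ∀ a ∈ S, ∃ g, a = rr a * g := fun a ha => by
    obtain ⟨g, hg, _⟩ := structure_units a (h0 a ha).ne' (h24 a ha)
    exact ⟨g, hg⟩
  choose! G hG using hst
  have hSne : S.Nonempty := Finset.card_pos.1 (by omega)
  obtain ⟨a0, ha0⟩ := hSne
  have hrr : ∀ a ∈ S, rr a = rr a0 := fun a ha =>
    rr_congr (h0 a ha).ne' (h0 a0 ha0).ne' (hpf a ha a0 ha0)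
  set R := rr a0 with hRdef
  have hR0 : 0 < R := rr_pos a0
  -- pigeonhole
  obtain ⟨γ, _, hγ⟩ := Finset.exists_lt_card_fiber_of_mul_lt_card_of_maps_to
    (s := S) (t := Finset.range P) (f := fun a => G a % P) (n := k)
    (fun a _ => Finset.mem_range.2 (Nat.mod_lt _ hP0)) (by rw [Finset.card_range]; exact hS)
  obtain ⟨S1, hS1, hcard⟩ := Finset.exists_subset_card_eq hγ.le
  set b : Fin k → ℕ := fun i => S1.orderEmbOfFin hcard i with hb
  have hbS1 : ∀ i, b i ∈ S1 := fun i => Finset.orderEmbOfFin_mem S1 hcard i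
  have hbS : ∀ i, b i ∈ S := fun i => (Finset.mem_filter.1 (hS1 (hbS1 i))).1
  have hbγ : ∀ i, G (b i) % P = γ := fun i => (Finset.mem_filter.1 (hS1 (hbS1 i))).2
  have hbinj : Function.Injective b := (S1.orderEmbOfFin hcard).injective
  have hbe : ∀ i, b i = R * G (b i) := fun i => by
    have := hG (b i) (hbS i)
    rw [hrr (b i) (hbS i)] at this
    exact this
  have hG0 : ∀ i, 0 < G (b i) := fun i => by
    rcases Nat.eq_zero_or_pos (G (b i)) with h | h
    · have := hbe i
      rw [h, mul_zero] at this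
      have := h0 (b i) (hbS i)
      omega
    · exact h
  -- residues
  have hdiv : ∀ p : ℕ, p.Prime → (p ∣ a0 ↔ ∃ i, p ∣ b i) := by
    intro p hp
    have i0 : Fin k := ⟨0, hk⟩
    constructor
    · intro h
      refine ⟨i0, ?_⟩
      have h1 : p ∈ a0.primeFactors := Nat.mem_primeFactors.2 ⟨hp, h, (h0 a0 ha0).ne'⟩
      rw [← hpf (b i0) (hbS i0) a0 ha0] at h1
      exact (Nat.mem_primeFactors.1 h1).2.1
    · rintro ⟨i, h⟩
      have h1 : p ∈ (b i).primeFactors := Nat.mem_primeFactors.2 ⟨hp, h, (h0 (b i) (hbS i)).ne'⟩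
      rw [hpf (b i) (hbS i) a0 ha0] at h1
      exact (Nat.mem_primeFactors.1 h1).2.1
  have hres : ∀ p : ℕ, ∃ c : ℕ, p.Prime → p ≠ 2 → ¬ p ∣ c ∧ ∀ j, ¬ p ∣ G (b j) * c + 1 := by
    intro p
    by_cases hp : p.Prime ∧ p ≠ 2
    · obtain ⟨c, hc⟩ := exists_res (fun j => G (b j)) p hp.1 hp.2 (by
        rcases Nat.lt_or_ge (k + 1) p with h | h
        · exact Or.inl h
        · right
          intro i j
          have hpP : p ∣ P := Finset.dvd_prod_of_mem (fun p => p)
            (Finset.mem_filter.2 ⟨Finset.mem_range.2 (by omega), hp.1⟩)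
          have h3 : G (b i) ≡ G (b j) [MOD P] := (hbγ i).trans (hbγ j).symm
          exact h3.of_dvd hpP)
      exact ⟨c, fun _ _ => hc⟩
    · exact ⟨0, fun h1 h2 => absurd ⟨h1, h2⟩ hp⟩
  choose c hc using hres
  obtain ⟨τ, hτ⟩ := Nat.chineseRemainderOfFinset
    (fun p => if p = 2 then (if 2 ∣ a0 then 1 else 0) else c p) (fun p => p) (2 * a0).primeFactors
    (fun p hp => (Nat.prime_of_mem_primeFactors hp).ne_zero)
    (by
      intro p hp q hq hpq
      exact (Nat.coprime_primes (Nat.prime_of_mem_primeFactors hp)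
        (Nat.prime_of_mem_primeFactors hq)).2 hpq)
  have h2a0 : 2 * a0 ≠ 0 := by have := h0 a0 ha0; omega
  have hτ2 : τ ≡ (if 2 ∣ a0 then 1 else 0) [MOD 2] := by
    have := hτ 2 (Nat.mem_primeFactors.2 ⟨Nat.prime_two, Dvd.intro _ rfl, h2a0⟩)
    simpa using this
  have hτp : ∀ p : ℕ, p.Prime → p ≠ 2 → p ∣ a0 → τ ≡ c p [MOD p] := by
    intro p hp hp2 hd
    have := hτ p (Nat.mem_primeFactors.2 ⟨hp, hd.mul_left 2, h2a0⟩)
    simpa [hp2] using this
  have hR2 : 2 ∣ a0 → ∀ i, 2 ∣ G (b i) := by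
    intro ha i
    rcases h2 with h | h
    · -- `8 ∣ b i = R * G`, and `R = 2 * odd`... use `R ∣ 4 * odd`
      have h8 := h (b i) (hbS i)
      by_contra hodd
      have hcop : Nat.Coprime 8 (G (b i)) := by
        have : Nat.Coprime 2 (G (b i)) := (Nat.Prime.coprime_iff_not_dvd Nat.prime_two).2 hodd
        exact Nat.Coprime.pow_left 3 this
      rw [hbe i] at h8
      have h8R : 8 ∣ R := Nat.Coprime.dvd_of_dvd_mul_right hcop h8
      rw [hRdef] at h8R
      unfold rr at h8R
      rw [if_pos ha] at h8R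
      have h4 : 4 ∣ ∏ p ∈ a0.primeFactors, p := by
        have : 2 * 4 ∣ 2 * ∏ p ∈ a0.primeFactors, p := h8R
        exact Nat.dvd_of_mul_dvd_mul_left (by norm_num) this
      have hsq : Squarefree (∏ p ∈ a0.primeFactors, p) := by
        apply Finset.squarefree_prod_of_pairwise_isCoprime
        · intro p hp q hq hpq
          exact Nat.coprime_iff_isRelPrime.1 ((Nat.coprime_primes (Nat.prime_of_mem_primeFactors hp)
            (Nat.prime_of_mem_primeFactors hq)).2 hpq)
        · intro p hp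
          exact (Nat.prime_of_mem_primeFactors hp).prime.squarefree
      have := hsq 2 h4
      rw [Nat.isUnit_iff] at this
      omega
    · exact absurd ha (h a0 ha0)
  obtain ⟨i, j, hij⟩ := pair_of_DHL hD b (fun i => G (b i)) R (2 * a0) τ
    (fun i => hrr (b i) (hbS i)) hbe hG0
    (by
      intro i j h
      apply hbinj
      have h' : G (b i) = G (b j) := h
      rw [hbe i, hbe j, h'])
    (fun i => h24 (b i) (hbS i))
    (fun i p hp hd => ((hdiv p hp).2 ⟨i, hd⟩).mul_left 2)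
    (by have := h0 a0 ha0; omega)
    (by
      intro p hp hd hτd
      have hpa := (hdiv p hp).2 hd
      by_cases hp2 : p = 2
      · subst hp2
        rw [if_pos hpa] at hτ2
        have h3 := (Nat.modEq_zero_iff_dvd.2 hτd).symm.trans hτ2
        exact absurd h3 (by decide)
      · have h3 := (Nat.modEq_zero_iff_dvd.2 hτd).symm.trans (hτp p hp hp2 hpa)
        exact (hc p hp hp2).1 (Nat.modEq_zero_iff_dvd.1 h3.symm))
    (by
      intro p hp hd j hj
      by_cases hp2 : p = 2
      · subst hp2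
        by_cases ha : 2 ∣ a0
        · have := (Nat.dvd_add_right ((hR2 ha j).mul_right τ)).1 hj
          omega
        · rw [if_neg ha] at hτ2
          have h3 : 2 ∣ τ := Nat.modEq_zero_iff_dvd.1 hτ2
          have := (Nat.dvd_add_right (h3.mul_left (G (b j)))).1 hj
          omega
      · have hpa : p ∣ a0 := by
          rcases (Nat.Prime.dvd_mul hp).1 hd with h | h
          · exact absurd ((Nat.prime_dvd_prime_iff_eq hp Nat.prime_two).1 h) hp2
          · exact h
        have h3 : G (b j) * τ + 1 ≡ G (b j) * c p + 1 [MOD p] :=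
          ((hτp p hp hp2 hpa).mul_left _).add_right 1
        exact (hc p hp hp2).2 j (Nat.modEq_zero_iff_dvd.1
          (h3.symm.trans (Nat.modEq_zero_iff_dvd.2 hj))))
  exact ⟨b i, hbS i, b j, hbS j, hij⟩

end Pool.Agent.UGrp
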