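import Pool.Agent.UGrp.Iso
import Pool.Agent.SL.ChDefs

/-!
# MP_fa09f8_nt: pairs of moduli from two primes among linear forms
-/

set_option autoImplicit false

namespace Pool.Agent.UGrp

open Pool.Agent.SL

/-- `a` and `b` are a good pair: arbitrarily large primes `p`, `q` with `b q - a p = b - a` and
`(ℤ/ap)ˣ ≅ (ℤ/bq)ˣ` -/
def Gd (a b : ℕ) : Prop :=
  a < b ∧ ∀ x : ℕ, ∃ p q : ℕ, x < p ∧ x < q ∧ p.Prime ∧ q.Prime ∧ b * q = a * p + (b - a) ∧
    UI (a * p) (b * q)

theorem Gd.scale {a b : ℕ} (m : ℕ) (hm : 0 < m) (h : Gd a b) (ha : m.Coprime a) (hb : m.Coprime b) :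
    Gd (m * a) (m * b) := by
  obtain ⟨hab, h⟩ := h
  refine ⟨Nat.mul_lt_mul_of_pos_left hab hm, fun x => ?_⟩
  obtain ⟨p, q, hp, hq, hpp, hqp, he, hU⟩ := h (max x m)
  have hpm : m.Coprime p := by
    refine ((Nat.Prime.coprime_iff_not_dvd hpp).2 fun hd => ?_).symm
    have := Nat.le_of_dvd hm hd
    have := le_max_right x m
    omega
  have hqm : m.Coprime q := by
    refine ((Nat.Prime.coprime_iff_not_dvd hqp).2 fun hd => ?_).symm
    have := Nat.le_of_dvd hm hd
    have := le_max_right x m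
    omega
  refine ⟨p, q, (le_max_left x m).trans_lt hp, (le_max_left x m).trans_lt hq, hpp, hqp, ?_, ?_⟩
  · rw [mul_assoc, he, mul_add, ← mul_assoc, Nat.mul_sub]
  · rw [mul_assoc, mul_assoc]
    exact hU.scale (Nat.Coprime.mul_right ha hpm) (Nat.Coprime.mul_right hb hqm)

/-- a good pair gives infinitely many moduli -/
theorem Gd.infinite {a b : ℕ} (ha : 0 < a) (h : Gd a b) :
    {n : ℕ | Nonempty ((ZMod n)ˣ ≃* (ZMod (n + (b - a)))ˣ)}.Infinite := by
  rw [Set.infinite_iff_exists_gt]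
  intro x
  obtain ⟨p, q, hp, -, -, -, he, hU⟩ := h.2 x
  refine ⟨a * p, ?_, ?_⟩
  · show Nonempty _
    rw [← he]
    exact hU
  · exact hp.trans_le (Nat.le_mul_of_pos_left p ha)

private theorem pigeon {k : ℕ} (P : Fin k → Fin k → ℕ → Prop)
    (h : ∀ x : ℕ, ∃ n ≥ x, ∃ i j, P i j n) : ∃ i j, ∀ x : ℕ, ∃ n ≥ x, P i j n := by
  by_contra hcon
  push Not at hcon
  choose f hf using hcon
  obtain ⟨n, hn, i, j, hP⟩ := h (∑ i, ∑ j, f i j)
  refine hf i j n ?_ hP
  refine le_trans ?_ hn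
  refine le_trans ?_ (Finset.single_le_sum (f := fun i => ∑ j, f i j) (fun _ _ => Nat.zero_le _)
    (Finset.mem_univ i))
  exact Finset.single_le_sum (f := fun j => f i j) (fun _ _ => Nat.zero_le _) (Finset.mem_univ j)

/-- **Main step.**  `Q`, `τ`: the variable is `t = Q n + τ`. -/
theorem pair_of_DHL {k : ℕ} (hD : DHL k) (b g : Fin k → ℕ) (R Q τ : ℕ) (hR : ∀ i, rr (b i) = R)
    (hb : ∀ i, b i = R * g i) (hg : ∀ i, 0 < g i) (hinj : Function.Injective g)
    (h24 : ∀ i, ¬ 2 ∣ b i ∨ 4 ∣ b i) (hrad : ∀ i, ∀ p : ℕ, p.Prime → p ∣ b i → p ∣ Q)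
    (hQ0 : 0 < Q) (hτ : ∀ p : ℕ, p.Prime → (∃ i, p ∣ b i) → ¬ p ∣ τ)
    (hadm : ∀ p : ℕ, p.Prime → p ∣ Q → ∀ j, ¬ p ∣ g j * τ + 1) :
    ∃ i j, Gd (b i) (b j) := by
  classical
  have hR0 : ∀ i : Fin k, 0 < R := fun i => hR i ▸ rr_pos (b i)
  have hb0 : ∀ i, 0 < b i := fun i => by rw [hb i]; exact Nat.mul_pos (hR0 i) (hg i)
  have h1 := hD (fun i => g i * Q) (fun i => g i * τ + 1) (fun i => Nat.mul_pos (hg i) hQ0)
    (by
      intro i j hij h
      apply hij
      apply hinj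
      have h2 : g i * Q * (g j * τ + 1) = g i * g j * Q * τ + g i * Q := by ring
      have h3 : g j * Q * (g i * τ + 1) = g i * g j * Q * τ + g j * Q := by ring
      rw [h2, h3] at h
      exact Nat.eq_of_mul_eq_mul_right hQ0 (Nat.add_left_cancel h))
    (by
      intro p hp
      by_cases hpQ : p ∣ Q
      · refine ⟨0, fun i => ?_⟩
        simp only [mul_zero, zero_add]
        exact hadm p hp hpQ i
      · -- choose `n` with `p ∣ Q n + τ`
        have hcop : Nat.Coprime Q p := ((Nat.Prime.coprime_iff_not_dvd hp).2 hpQ).symm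
        obtain ⟨n, hn⟩ : ∃ n : ℕ, p ∣ Q * n + τ := by
          have hu : IsUnit (Q : ZMod p) := (ZMod.isUnit_iff_coprime Q p).2 hcop
          obtain ⟨u, hu⟩ := hu
          have : NeZero p := ⟨hp.ne_zero⟩
          refine ⟨((u⁻¹ : (ZMod p)ˣ) * (-(τ : ZMod p)) : ZMod p).val, ?_⟩
          rw [← ZMod.natCast_eq_zero_iff]
          push_cast
          rw [ZMod.natCast_zmod_val, ← hu, ← mul_assoc, Units.mul_inv, one_mul]
          ring
        refine ⟨n, fun i hd => ?_⟩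
        have h4 : g i * Q * n + (g i * τ + 1) = g i * (Q * n + τ) + 1 := by ring
        rw [h4] at hd
        have h5 := (Nat.dvd_add_right (hn.mul_left (g i))).1 hd
        exact hp.one_lt.ne' (Nat.dvd_one.1 h5))
  -- pigeonhole
  obtain ⟨i, j, hP⟩ := pigeon (fun i j n => i ≠ j ∧ (g i * Q * n + (g i * τ + 1)).Prime ∧
    (g j * Q * n + (g j * τ + 1)).Prime) h1
  have hij : i ≠ j := by
    obtain ⟨n, _, h, _⟩ := hP 0
    exact h
  have hgij : g i ≠ g j := fun h => hij (hinj h)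
  -- the statement for `g a < g b`
  have main : ∀ a c : Fin k, g a < g c → (∀ x : ℕ, ∃ n ≥ x, (g a * Q * n + (g a * τ + 1)).Prime ∧
      (g c * Q * n + (g c * τ + 1)).Prime) → Gd (b a) (b c) := by
    intro a c hac hx
    have hlt : b a < b c := by
      rw [hb a, hb c]
      exact Nat.mul_lt_mul_of_pos_left hac (hR0 a)
    refine ⟨hlt, fun x => ?_⟩
    obtain ⟨n, hn, hpa, hpc⟩ := hx (x + b a + b c)
    obtain ⟨t, ht⟩ : ∃ t, t = Q * n + τ := ⟨_, rfl⟩
    have e1 : g a * Q * n + (g a * τ + 1) = g a * t + 1 := by rw [ht]; ring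
    have e2 : g c * Q * n + (g c * τ + 1) = g c * t + 1 := by rw [ht]; ring
    rw [e1] at hpa
    rw [e2] at hpc
    have hnt : n ≤ t := by
      rw [ht]
      exact (Nat.le_mul_of_pos_left n hQ0).trans (Nat.le_add_right _ _)
    have hta : n < g a * t + 1 := by
      have := Nat.le_mul_of_pos_left t (hg a)
      omega
    have htc : n < g c * t + 1 := by
      have := Nat.le_mul_of_pos_left t (hg c)
      omega
    have hcopt : ∀ i, t.Coprime (b i) := by
      intro i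
      rw [Nat.coprime_iff_gcd_eq_one]
      by_contra hne
      obtain ⟨p, hp, hpd⟩ := Nat.exists_prime_and_dvd hne
      have hp1 := hpd.trans (Nat.gcd_dvd_left _ _)
      have hp2 := hpd.trans (Nat.gcd_dvd_right _ _)
      have hpQ := hrad i p hp hp2
      rw [ht] at hp1
      exact hτ p hp ⟨i, hp2⟩ ((Nat.dvd_add_right (hpQ.mul_right n)).1 hp1)
    refine ⟨g c * t + 1, g a * t + 1, by omega, by omega, hpc, hpa, ?_, ?_⟩
    · rw [hb a, hb c, ← Nat.mul_sub]
      obtain ⟨e, he⟩ : ∃ e, g c = g a + e := ⟨g c - g a, by omega⟩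
      rw [he, Nat.add_sub_cancel_left]
      ring
    · exact iso_pair (hb0 a).ne' (hb0 c).ne' (hR a) (hR c) (h24 a) (h24 c) (hb a) (hb c) (hcopt a)
        (hcopt c) hpc hpa rfl rfl
        (fun hd => by have := Nat.le_of_dvd (hb0 a) hd; omega)
        (fun hd => by have := Nat.le_of_dvd (hb0 c) hd; omega)
  rcases lt_or_gt_of_ne hgij with h | h
  · exact ⟨i, j, main i j h fun x => by
      obtain ⟨n, hn, _, h2, h3⟩ := hP x
      exact ⟨n, hn, h2, h3⟩⟩
  · exact ⟨j, i, main j i h fun x => by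
      obtain ⟨n, hn, _, h2, h3⟩ := hP x
      exact ⟨n, hn, h3, h2⟩⟩

end Pool.Agent.UGrp
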