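import Pool.Agent.UGrp.Sieve

/-!
# MP_fa09f8_nt: the soft theorems from `DHL k`
-/

set_option autoImplicit false

namespace Pool.Agent.UGrp

open Pool.Agent.SL

theorem rr_two_pow (n : ℕ) : rr (2 ^ (n + 2)) = 4 := by
  unfold rr
  rw [if_pos (dvd_pow_self 2 (by omega)), Nat.primeFactors_prime_pow (by omega) Nat.prime_two,
    Finset.prod_singleton]

theorem rr_odd_pow {p : ℕ} (hp : p.Prime) (hp2 : p ≠ 2) (n : ℕ) : rr (p ^ (n + 1)) = p := by
  unfold rr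
  rw [if_neg, Nat.primeFactors_prime_pow (by omega) hp, Finset.prod_singleton, one_mul]
  intro h2
  have := Nat.prime_two.dvd_of_dvd_pow h2
  exact hp2 ((Nat.prime_dvd_prime_iff_eq Nat.prime_two hp).1 this).symm

theorem rr_congr {a b : ℕ} (ha : a ≠ 0) (hb : b ≠ 0) (h : a.primeFactors = b.primeFactors) :
    rr a = rr b := by
  unfold rr
  have h2 : 2 ∣ a ↔ 2 ∣ b := by
    have h3 : 2 ∈ a.primeFactors ↔ 2 ∈ b.primeFactors := by rw [h]
    rw [Nat.mem_primeFactors, Nat.mem_primeFactors] at h3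
    exact ⟨fun h4 => (h3.1 ⟨Nat.prime_two, h4, ha⟩).2.1, fun h4 => (h3.2 ⟨Nat.prime_two, h4, hb⟩).2.1⟩
  rw [h]
  by_cases h4 : 2 ∣ a
  · rw [if_pos h4, if_pos (h2.1 h4)]
  · rw [if_neg h4, if_neg (fun h5 => h4 (h2.2 h5))]

/-- every shift has a bounded multiple which is good -/
theorem shift_soft {k : ℕ} (hD : DHL k) (K : ℕ) (hK : 0 < K) : ∃ c : ℕ, 0 < c ∧ c ≤ 72 * 3 ^ k ∧
    {n : ℕ | Nonempty ((ZMod n)ˣ ≃* (ZMod (n + c * K))ˣ)}.Infinite := by
  obtain ⟨u, K1, hK1, hKe⟩ := Nat.exists_eq_pow_mul_and_not_dvd hK.ne' 2 (by norm_num)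
  have hK10 : K1 ≠ 0 := by rintro rfl; simp at hKe; omega
  obtain ⟨v, m, hm3, hK1e⟩ := Nat.exists_eq_pow_mul_and_not_dvd hK10 3 (by norm_num)
  have hm0 : m ≠ 0 := by rintro rfl; simp at hK1e; omega
  have hm2 : ¬ 2 ∣ m := fun h => hK1 (by rw [hK1e]; exact h.mul_left _)
  have hc2 : Nat.Coprime m 2 := ((Nat.Prime.coprime_iff_not_dvd Nat.prime_two).2 hm2).symm
  have hc3 : Nat.Coprime m 3 := ((Nat.Prime.coprime_iff_not_dvd Nat.prime_three).2 hm3).symm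
  have hcb : ∀ i : ℕ, (2 ^ (u + 3)).Coprime (3 ^ (v + 2 + i)) := fun i =>
    Nat.Coprime.pow _ _ (by norm_num)
  obtain ⟨i, j, hG⟩ := pair_of_DHL hD (fun i : Fin k => 2 ^ (u + 3) * 3 ^ (v + 2 + (i : ℕ)))
    (fun i : Fin k => 2 ^ (u + 1) * 3 ^ (v + 1 + (i : ℕ))) 12 12 1
    (fun i => by
      show rr (2 ^ (u + 3) * 3 ^ (v + 2 + (i : ℕ))) = 12
      rw [rr_mul (hcb i), show u + 3 = (u + 1) + 2 from rfl, rr_two_pow,
        show v + 2 + (i : ℕ) = (v + 1 + i) + 1 by ring, rr_odd_pow Nat.prime_three (by norm_num)])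
    (fun i => by
      show 2 ^ (u + 3) * 3 ^ (v + 2 + (i : ℕ)) = 12 * (2 ^ (u + 1) * 3 ^ (v + 1 + (i : ℕ)))
      ring)
    (fun i => by positivity)
    (by
      intro i j h
      have h1 : 2 ^ (u + 1) * 3 ^ (v + 1 + (i : ℕ)) = 2 ^ (u + 1) * 3 ^ (v + 1 + (j : ℕ)) := h
      have h2 := Nat.eq_of_mul_eq_mul_left (by positivity) h1
      have h3 := Nat.pow_right_injective (le_refl 2 |>.trans (by norm_num : 2 ≤ 3)) h2
      exact Fin.ext (by omega))
    (fun i => Or.inr ((Dvd.intro (2 ^ (u + 1)) (by ring)).mul_right _))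
    (by
      intro i p hp hd
      rcases (Nat.Prime.dvd_mul hp).1 hd with h | h
      · have := (Nat.prime_dvd_prime_iff_eq hp Nat.prime_two).1 (hp.dvd_of_dvd_pow h)
        subst this; norm_num
      · have := (Nat.prime_dvd_prime_iff_eq hp Nat.prime_three).1 (hp.dvd_of_dvd_pow h)
        subst this; norm_num)
    (by norm_num)
    (by
      intro p hp _ h1
      exact hp.one_lt.ne' (Nat.dvd_one.1 h1))
    (by
      intro p hp hpd j hd
      have hg : p ∣ 2 ^ (u + 1) * 3 ^ (v + 1 + (j : ℕ)) * 1 := by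
        rw [mul_one]
        rcases (Nat.Prime.dvd_mul hp).1 (show p ∣ 4 * 3 from hpd) with h | h
        · have h2 : p ∣ 2 ^ 2 := h
          have := (Nat.prime_dvd_prime_iff_eq hp Nat.prime_two).1 (hp.dvd_of_dvd_pow h2)
          subst this
          exact (dvd_pow_self 2 (by omega)).mul_right _
        · have := (Nat.prime_dvd_prime_iff_eq hp Nat.prime_three).1 h
          subst this
          exact (dvd_pow_self 3 (by omega)).mul_left _
      have := (Nat.dvd_add_right hg).1 hd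
      exact hp.one_lt.ne' (Nat.dvd_one.1 this))
  have hcop : ∀ l : Fin k, m.Coprime (2 ^ (u + 3) * 3 ^ (v + 2 + (l : ℕ))) := fun l =>
    Nat.Coprime.mul_right (Nat.Coprime.pow_right _ hc2) (Nat.Coprime.pow_right _ hc3)
  have hG2 := hG.scale m (Nat.pos_of_ne_zero hm0) (hcop i) (hcop j)
  have hij : (i : ℕ) < j := by
    have h1 := hG.1
    have h2 := Nat.lt_of_mul_lt_mul_left h1
    have h3 := (Nat.pow_lt_pow_iff_right (by norm_num : 1 < 3)).1 h2
    omega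
  have h3 : 3 ^ (i : ℕ) < 3 ^ (j : ℕ) := Nat.pow_lt_pow_right (by norm_num) hij
  refine ⟨72 * (3 ^ (j : ℕ) - 3 ^ (i : ℕ)), by omega, ?_, ?_⟩
  · apply Nat.mul_le_mul_left
    exact (Nat.sub_le _ _).trans (Nat.pow_le_pow_right (by norm_num) j.2.le)
  · have h4 := hG2.infinite (by positivity)
    have h5 : m * (2 ^ (u + 3) * 3 ^ (v + 2 + (j : ℕ))) - m * (2 ^ (u + 3) * 3 ^ (v + 2 + (i : ℕ))) =
        72 * (3 ^ (j : ℕ) - 3 ^ (i : ℕ)) * K := by
      obtain ⟨e, he⟩ : ∃ e, 3 ^ (j : ℕ) = 3 ^ (i : ℕ) + e := ⟨3 ^ (j : ℕ) - 3 ^ (i : ℕ), by omega⟩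
      have e1 : m * (2 ^ (u + 3) * 3 ^ (v + 2 + (j : ℕ))) =
          m * (2 ^ (u + 3) * 3 ^ (v + 2 + (i : ℕ))) + 72 * e * K := by
        rw [hKe, hK1e, pow_add 3 (v + 2) (j : ℕ), he]
        ring
      rw [e1, he, Nat.add_sub_cancel_left, Nat.add_sub_cancel_left]
    rw [h5] at h4
    exact h4

end Pool.Agent.UGrp
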