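import Pool.Agent.UGrp.Mult
import Pool.Agent.UGrp.DhlM

/-!
# MP_fa09f8_nt: many moduli in a bounded interval with isomorphic unit groups
-/

set_option autoImplicit false

namespace Pool.Agent.UGrp

open Pool.Agent.SL

private theorem pigeonS {k : ℕ} (P : Finset (Fin k) → ℕ → Prop)
    (h : ∀ x : ℕ, ∃ n ≥ x, ∃ I, P I n) : ∃ I, ∀ x : ℕ, ∃ n ≥ x, P I n := by
  classical
  by_contra hcon
  push Not at hcon
  choose f hf using hcon
  obtain ⟨n, hn, I, hP⟩ := h (∑ I, f I)
  refine hf I n ?_ hP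
  refine le_trans ?_ hn
  exact Finset.single_le_sum (f := f) (fun _ _ => Nat.zero_le _) (Finset.mem_univ I)

/-- the part of `w` prime to two primes -/
theorem two_parts {a b w : ℕ} (ha : a.Prime) (hb : b.Prime) (hab : a ≠ b) (hw : w ≠ 0) :
    ∃ m, w = a ^ w.factorization a * b ^ w.factorization b * m ∧ m.Coprime a ∧ m.Coprime b := by
  have h3 := Nat.ordProj_mul_ordCompl_eq_self w a
  set w1 := w / a ^ w.factorization a with hw1
  have hw1a : ¬ a ∣ w1 := Nat.not_dvd_ordCompl ha hw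
  have hw10 : w1 ≠ 0 := by rintro h; rw [h] at hw1a; exact hw1a (dvd_zero _)
  have hf1 : w1.factorization b = w.factorization b := by
    have h4 : (a ^ w.factorization a).factorization b = 0 :=
      Nat.factorization_eq_zero_of_not_dvd fun hd =>
        hab ((Nat.prime_dvd_prime_iff_eq hb ha).1 (hb.dvd_of_dvd_pow hd)).symm
    conv_rhs => rw [← h3]
    rw [Nat.factorization_mul (pow_pos ha.pos _).ne' hw10, Finsupp.add_apply, h4, zero_add]
  have h5 := Nat.ordProj_mul_ordCompl_eq_self w1 b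
  rw [hf1] at h5
  refine ⟨w1 / b ^ w.factorization b, ?_, ?_, ?_⟩
  · rw [mul_assoc, h5, h3]
  · refine ((Nat.Prime.coprime_iff_not_dvd ha).2 fun hd => hw1a ?_).symm
    rw [← h5]
    exact hd.mul_left _
  · refine ((Nat.Prime.coprime_iff_not_dvd hb).2 fun hd => ?_).symm
    have := Nat.not_dvd_ordCompl hb hw10
    rw [hf1] at this
    exact this hd

open Classical in
/-- `m` moduli in a bounded interval -/
theorem tuple_of_DHLM {k m : ℕ} (hD : DHLM k m) : ∃ C : ℕ, ∀ K : ℕ, 0 < K →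
    ∃ E : Finset ℕ, E.card = m ∧ (∀ e ∈ E, e ≤ C) ∧
      {n : ℕ | ∀ a ∈ E, ∀ b ∈ E,
        Nonempty ((ZMod (n + a * K))ˣ ≃* (ZMod (n + b * K))ˣ)}.Infinite := by
  set ℓ : Fin k → ℕ := fun i => Nat.nth Nat.Prime (i + 1) with hℓd
  have hℓ : ∀ i, (ℓ i).Prime := fun i => Nat.prime_nth_prime _
  have hmono : StrictMono (Nat.nth Nat.Prime) := Nat.nth_strictMono Nat.infinite_setOfPred_prime
  have hinj : Function.Injective ℓ := by
    intro i j h
    have := hmono.injective h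
    exact Fin.ext (by omega)
  have hℓ2 : ∀ i, ℓ i ≠ 2 := by
    intro i h
    have h0 : Nat.nth Nat.Prime 0 = 2 := Nat.nth_prime_zero_eq_two
    have h1 : Nat.nth Nat.Prime 0 < Nat.nth Nat.Prime (i + 1) := hmono (by omega)
    rw [h0] at h1
    have h3 : Nat.nth Nat.Prime (i + 1) = 2 := h
    omega
  set P : ℕ := ∏ i, ℓ i with hP
  have hP0 : 0 < P := Finset.prod_pos fun i _ => (hℓ i).pos
  have hdP : ∀ i, ℓ i ∣ P := fun i => Finset.dvd_prod_of_mem _ (Finset.mem_univ i)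
  set Q : ℕ := P ^ 3 with hQ
  have hQ0 : 0 < Q := pow_pos hP0 3
  have hdQ : ∀ i, ℓ i ^ 3 ∣ Q := fun i => pow_dvd_pow_of_dvd (hdP i) 3
  have hdQ1 : ∀ i, ℓ i ∣ Q := fun i => (dvd_pow_self _ (by norm_num)).trans (hdQ i)
  refine ⟨Q, fun K hK => ?_⟩
  set B : ℕ := Q * K with hB
  have hB0 : B ≠ 0 := (Nat.mul_pos hQ0 hK).ne'
  set v : Fin k → ℕ := fun i => B.factorization (ℓ i) - 2 with hv
  have h3 : ∀ i, 3 ≤ B.factorization (ℓ i) := fun i =>
    ((hℓ i).pow_dvd_iff_le_factorization hB0).1 ((hdQ i).mul_right K)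
  have hv1 : ∀ i, B.factorization (ℓ i) = v i + 2 := fun i => by
    have := h3 i
    simp only [hv]
    omega
  have hvpos : ∀ i, 0 < v i := fun i => by
    have := h3 i
    simp only [hv]
    omega
  set R0 : ℕ := ∏ i, ℓ i ^ v i with hR0
  have hR00 : 0 < R0 := Finset.prod_pos fun i _ => pow_pos (hℓ i).pos _
  have hcop : ∀ i j, i ≠ j → (ℓ i).Coprime (ℓ j) := fun i j h =>
    (Nat.coprime_primes (hℓ i) (hℓ j)).2 fun h2 => h (hinj h2)
  have h1 := hD (fun i => ℓ i * R0 * P) (fun i => ℓ i * R0 + 1)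
    (fun i => Nat.mul_pos (Nat.mul_pos (hℓ i).pos hR00) hP0)
    (by
      intro i j hij h
      apply hij
      apply hinj
      have h2 : ℓ i * R0 * P * (ℓ j * R0 + 1) = ℓ i * ℓ j * R0 * R0 * P + ℓ i * (R0 * P) := by ring
      have h3 : ℓ j * R0 * P * (ℓ i * R0 + 1) = ℓ i * ℓ j * R0 * R0 * P + ℓ j * (R0 * P) := by ring
      rw [h2, h3] at h
      exact Nat.eq_of_mul_eq_mul_right (Nat.mul_pos hR00 hP0) (Nat.add_left_cancel h))
    (by
      intro p hp
      by_cases hpR : p ∣ R0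
      · refine ⟨0, fun i hd => ?_⟩
        rw [mul_zero, zero_add] at hd
        have h5 := (Nat.dvd_add_right (hpR.mul_left (ℓ i))).1 hd
        exact hp.one_lt.ne' (Nat.dvd_one.1 h5)
      · have hpP : ¬ p ∣ P := by
          intro hd
          obtain ⟨i, -, hi⟩ := (Prime.dvd_finsetProd_iff hp.prime _).1 hd
          apply hpR
          rw [hR0]
          refine (hi.trans (dvd_pow_self (ℓ i) (hvpos i).ne')).trans ?_
          exact Finset.dvd_prod_of_mem (fun i => ℓ i ^ v i) (Finset.mem_univ i)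
        have hcp : Nat.Coprime P p := ((Nat.Prime.coprime_iff_not_dvd hp).2 hpP).symm
        obtain ⟨n, hn⟩ : ∃ n : ℕ, p ∣ P * n + 1 := by
          have hu : IsUnit (P : ZMod p) := (ZMod.isUnit_iff_coprime P p).2 hcp
          obtain ⟨u, hu⟩ := hu
          have : NeZero p := ⟨hp.ne_zero⟩
          refine ⟨((u⁻¹ : (ZMod p)ˣ) * (-(1 : ZMod p)) : ZMod p).val, ?_⟩
          rw [← ZMod.natCast_eq_zero_iff]
          push_cast
          rw [ZMod.natCast_zmod_val, ← hu, ← mul_assoc, Units.mul_inv, one_mul]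
          ring
        refine ⟨n, fun i hd => ?_⟩
        have h4 : ℓ i * R0 * P * n + (ℓ i * R0 + 1) = ℓ i * R0 * (P * n + 1) + 1 := by ring
        rw [h4] at hd
        have h5 := (Nat.dvd_add_right (hn.mul_left (ℓ i * R0))).1 hd
        exact hp.one_lt.ne' (Nat.dvd_one.1 h5))
  obtain ⟨I, hI⟩ := pigeonS (fun I n => m < I.card ∧
    ∀ i ∈ I, (ℓ i * R0 * P * n + (ℓ i * R0 + 1)).Prime) (fun x => by
      obtain ⟨n, hn, hc⟩ := h1 x
      exact ⟨n, hn, _, hc, fun i hi => (Finset.mem_filter.1 hi).2⟩)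
  have hmI : m ≤ I.card := by
    obtain ⟨n, -, h, -⟩ := hI 0
    exact h.le
  obtain ⟨I', hI', hI'c⟩ := Finset.exists_subset_card_eq hmI
  have hinjQ : Set.InjOn (fun i => Q / ℓ i) (I' : Set (Fin k)) := by
    intro i _ j _ h
    have h' : Q / ℓ i = Q / ℓ j := h
    apply hinj
    have h4 := Nat.div_mul_cancel (hdQ1 i)
    have h5 := Nat.div_mul_cancel (hdQ1 j)
    rw [h'] at h4
    have h6 : 0 < Q / ℓ j := Nat.div_pos (Nat.le_of_dvd hQ0 (hdQ1 j)) (hℓ j).pos
    exact Nat.eq_of_mul_eq_mul_left h6 (h4.trans h5.symm)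
  refine ⟨I'.image fun i => Q / ℓ i, ?_, ?_, ?_⟩
  · rw [Finset.card_image_of_injOn hinjQ, hI'c]
  · intro e he
    obtain ⟨i, -, rfl⟩ := Finset.mem_image.1 he
    exact Nat.div_le_self _ _
  · rw [Set.infinite_iff_exists_gt]
    intro x
    obtain ⟨n, hn, -, hp⟩ := hI (x + 1 + B)
    obtain ⟨t, ht⟩ : ∃ t, t = P * n + 1 := ⟨_, rfl⟩
    have he : ∀ i, ℓ i * R0 * P * n + (ℓ i * R0 + 1) = ℓ i * R0 * t + 1 := fun i => by
      rw [ht]; ring
    have hnt : n ≤ t := by
      rw [ht]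
      exact (Nat.le_mul_of_pos_left n hP0).trans (Nat.le_add_right _ _)
    have hct : ∀ z : Fin k, t.Coprime (ℓ z) := by
      intro z
      refine ((Nat.Prime.coprime_iff_not_dvd (hℓ z)).2 fun hd => ?_).symm
      rw [ht] at hd
      have h5 := (Nat.dvd_add_right ((hdP z).mul_right n)).1 hd
      exact (hℓ z).one_lt.ne' (Nat.dvd_one.1 h5)
    have hlt : ∀ i, B < ℓ i * R0 * t + 1 := fun i => by
      have : t ≤ ℓ i * R0 * t := Nat.le_mul_of_pos_left t (Nat.mul_pos (hℓ i).pos hR00)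
      omega
    -- the moduli
    have hmod : ∀ i, B * (R0 * t) + Q / ℓ i * K = B / ℓ i * (ℓ i * R0 * t + 1) := by
      intro i
      have h4 : B / ℓ i = Q / ℓ i * K := by
        rw [hB, mul_comm Q K, Nat.mul_div_assoc _ (hdQ1 i), mul_comm]
      have h5 : B / ℓ i * ℓ i = B := Nat.div_mul_cancel ((hdQ1 i).mul_right K)
      calc B * (R0 * t) + Q / ℓ i * K = B / ℓ i * ℓ i * (R0 * t) + B / ℓ i := by rw [h5, h4]
        _ = B / ℓ i * (ℓ i * R0 * t + 1) := by ring
    have main : ∀ i ∈ I, ∀ j ∈ I, ℓ i < ℓ j →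
        UI (B / ℓ j * (ℓ j * R0 * t + 1)) (B / ℓ i * (ℓ i * R0 * t + 1)) := by
      intro i hi j hj hij
      have hne : i ≠ j := fun h => by rw [h] at hij; exact absurd hij (lt_irrefl _)
      obtain ⟨m', hm, hma, hmb⟩ := two_parts (hℓ i) (hℓ j) hij.ne hB0
      rw [hv1 i, hv1 j] at hm
      have hm0 : 0 < m' := by
        rcases Nat.eq_zero_or_pos m' with h | h
        · rw [h, mul_zero] at hm
          exact absurd hm hB0
        · exact h
      obtain ⟨R1, hR1, hR1a, hR1c⟩ : ∃ R1, R0 = ℓ i ^ v i * ℓ j ^ v j * R1 ∧ R1.Coprime (ℓ i) ∧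
          R1.Coprime (ℓ j) := by
        refine ⟨∏ x ∈ (Finset.univ.erase i).erase j, ℓ x ^ v x, ?_, ?_, ?_⟩
        · rw [hR0, ← Finset.mul_prod_erase Finset.univ _ (Finset.mem_univ i),
            ← Finset.mul_prod_erase (Finset.univ.erase i) _
              (Finset.mem_erase.2 ⟨hne.symm, Finset.mem_univ j⟩), mul_assoc]
        · apply Nat.Coprime.prod_left
          intro x hx
          rw [Finset.mem_erase, Finset.mem_erase] at hx
          exact Nat.Coprime.pow_left _ (hcop x i hx.2.1)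
        · apply Nat.Coprime.prod_left
          intro x hx
          rw [Finset.mem_erase, Finset.mem_erase] at hx
          exact Nat.Coprime.pow_left _ (hcop x j hx.1)
      have hpj := hp j hj
      have hpi := hp i hi
      rw [he] at hpj hpi
      have key := pair_two (u := v i) (v := v j) (hℓ i) (hℓ j) (hℓ2 i) (hℓ2 j) hij hma hmb hR1a hR1c
        (hct i) (hct j) hpj hpi (by rw [← hR1]) (by rw [← hR1]) hm0
        (by rw [← hm]; exact hlt j) (by rw [← hm]; exact hlt i)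
      have e1 : B / ℓ j = ℓ i ^ (v i + 1) * ℓ j ^ (v j + 1) * m' * ℓ i := by
        apply Nat.div_eq_of_eq_mul_left (hℓ j).pos
        rw [hm]; ring
      have e2 : B / ℓ i = ℓ i ^ (v i + 1) * ℓ j ^ (v j + 1) * m' * ℓ j := by
        apply Nat.div_eq_of_eq_mul_left (hℓ i).pos
        rw [hm]; ring
      rw [e1, e2]
      exact key
    refine ⟨B * (R0 * t), ?_, ?_⟩
    · intro a ha b hb
      obtain ⟨i, hi, rfl⟩ := Finset.mem_image.1 ha
      obtain ⟨j, hj, rfl⟩ := Finset.mem_image.1 hb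
      show Nonempty ((ZMod (B * (R0 * t) + Q / ℓ i * K))ˣ ≃* (ZMod (B * (R0 * t) + Q / ℓ j * K))ˣ)
      rw [hmod i, hmod j]
      rcases lt_trichotomy (ℓ i) (ℓ j) with h | h | h
      · obtain ⟨e⟩ := main i (hI' hi) j (hI' hj) h
        exact ⟨e.symm⟩
      · rw [hinj h]
        exact ⟨MulEquiv.refl _⟩
      · exact main j (hI' hj) i (hI' hi) h
    · have h6 : t ≤ B * (R0 * t) := by
        rw [← mul_assoc]
        exact Nat.le_mul_of_pos_left t (Nat.mul_pos (Nat.pos_of_ne_zero hB0) hR00)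
      omega

end Pool.Agent.UGrp
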